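import Pool.Agent.Lib.MP_347126_al.Phi

/-!
# MP_347126_al: the stabiliser of the last strand
-/

set_option autoImplicit false

namespace Pool.Agent.Lib.MP347126

open MPd28408

/-! ## Identities in groups -/

section grp

variable {G : Type*} [Group G] {a b c : G}

lemma g_conj (h : a * b * a = b * a * b) : b * a * b⁻¹ = a⁻¹ * b * a := by
  have h1 : b * a = a⁻¹ * b * a * b := by
    calc b * a = a⁻¹ * (a * b * a) := by group
    _ = a⁻¹ * b * a * b := by rw [h]; group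
  rw [h1]
  group

lemma g_sq (h : a * b * a = b * a * b) : a * b⁻¹ * b⁻¹ = b⁻¹ * a⁻¹ * a⁻¹ * b * a := by
  have k := g_conj h
  calc a * b⁻¹ * b⁻¹ = b⁻¹ * (b * a * b⁻¹) * b⁻¹ := by group
  _ = b⁻¹ * (a⁻¹ * b * a) * b⁻¹ := by rw [k]
  _ = b⁻¹ * a⁻¹ * b * (b⁻¹ * (b * a * b⁻¹)) := by group
  _ = b⁻¹ * a⁻¹ * b * (b⁻¹ * (a⁻¹ * b * a)) := by rw [k]
  _ = b⁻¹ * a⁻¹ * a⁻¹ * b * a := by group

lemma g_comm {x y s : G} (h1 : x * c = c * y) (h2 : y * s = s * y) :
    x * (c * s⁻¹ * s⁻¹ * c⁻¹) = (c * s⁻¹ * s⁻¹ * c⁻¹) * x := by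
  have hx : x = c * y * c⁻¹ := by rw [← h1, mul_inv_cancel_right]
  have h3 : y * (s⁻¹ * s⁻¹) = (s⁻¹ * s⁻¹) * y := by
    have h4 : Commute y s := h2
    exact (h4.inv_right.mul_right h4.inv_right)
  rw [hx]
  calc c * y * c⁻¹ * (c * s⁻¹ * s⁻¹ * c⁻¹) = c * (y * (s⁻¹ * s⁻¹)) * c⁻¹ := by group
  _ = c * ((s⁻¹ * s⁻¹) * y) * c⁻¹ := by rw [h3]
  _ = (c * s⁻¹ * s⁻¹ * c⁻¹) * (c * y * c⁻¹) := by group

lemma g_hi (h : a * b * a = b * a * b) (hc : a * c = c * a) :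
    a * (c * b⁻¹ * b⁻¹ * c⁻¹) = (c * b⁻¹ * a⁻¹ * a⁻¹ * (c * b⁻¹)⁻¹) * a := by
  have hc' : c⁻¹ * a = a * c⁻¹ := by
    rw [inv_mul_eq_iff_eq_mul, ← mul_assoc, ← hc, mul_inv_cancel_right]
  calc a * (c * b⁻¹ * b⁻¹ * c⁻¹) = (a * c) * (b⁻¹ * b⁻¹) * c⁻¹ := by group
  _ = c * (a * b⁻¹ * b⁻¹) * c⁻¹ := by rw [hc]; group
  _ = c * b⁻¹ * a⁻¹ * a⁻¹ * b * (a * c⁻¹) := by rw [g_sq h]; group
  _ = (c * b⁻¹ * a⁻¹ * a⁻¹ * (c * b⁻¹)⁻¹) * a := by rw [← hc']; group

lemma g_prod (h : a * b * a = b * a * b) (hc : a * c = c * a) :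
    a * ((c * b⁻¹ * a⁻¹ * a⁻¹ * (c * b⁻¹)⁻¹) * (c * b⁻¹ * b⁻¹ * c⁻¹)) =
      ((c * b⁻¹ * a⁻¹ * a⁻¹ * (c * b⁻¹)⁻¹) * (c * b⁻¹ * b⁻¹ * c⁻¹)) * a := by
  have hc' : c⁻¹ * a = a * c⁻¹ := by
    rw [inv_mul_eq_iff_eq_mul, ← mul_assoc, ← hc, mul_inv_cancel_right]
  have k : b * a * a * b * a = a * (b * a * a * b) := by
    calc b * a * a * b * a = b * a * (a * b * a) := by group
    _ = (b * a * b) * a * b := by rw [h]; group
    _ = a * (b * a * a * b) := by rw [← h]; group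
  have k' : a * (b⁻¹ * a⁻¹ * a⁻¹ * b⁻¹) = b⁻¹ * a⁻¹ * a⁻¹ * b⁻¹ * a := by
    calc a * (b⁻¹ * a⁻¹ * a⁻¹ * b⁻¹) = (b * a * a * b)⁻¹ * ((b * a * a * b) * a) *
        (b * a * a * b)⁻¹ := by group
    _ = (b * a * a * b)⁻¹ * (a * (b * a * a * b)) * (b * a * a * b)⁻¹ := by rw [← k]
    _ = b⁻¹ * a⁻¹ * a⁻¹ * b⁻¹ * a := by group
  calc a * ((c * b⁻¹ * a⁻¹ * a⁻¹ * (c * b⁻¹)⁻¹) * (c * b⁻¹ * b⁻¹ * c⁻¹))
      = (a * c) * (b⁻¹ * a⁻¹ * a⁻¹ * b⁻¹) * c⁻¹ := by group
  _ = c * (a * (b⁻¹ * a⁻¹ * a⁻¹ * b⁻¹)) * c⁻¹ := by rw [hc]; group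
  _ = c * (b⁻¹ * a⁻¹ * a⁻¹ * b⁻¹) * (a * c⁻¹) := by rw [k']; group
  _ = ((c * b⁻¹ * a⁻¹ * a⁻¹ * (c * b⁻¹)⁻¹) * (c * b⁻¹ * b⁻¹ * c⁻¹)) * a := by rw [← hc']; group

lemma g_lo (h : a * b * a = b * a * b) (hc : a * c = c * a) :
    a * (c * b⁻¹ * a⁻¹ * a⁻¹ * (c * b⁻¹)⁻¹) =
      (c * b⁻¹ * a⁻¹ * a⁻¹ * (c * b⁻¹)⁻¹) * (c * b⁻¹ * b⁻¹ * c⁻¹) *
        (c * b⁻¹ * a⁻¹ * a⁻¹ * (c * b⁻¹)⁻¹)⁻¹ * a := by
  have h1 := g_hi h hc
  have h2 := g_prod h hc
  set X := c * b⁻¹ * a⁻¹ * a⁻¹ * (c * b⁻¹)⁻¹ with hX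
  set Y := c * b⁻¹ * b⁻¹ * c⁻¹ with hY
  calc a * X = a * (X * Y) * Y⁻¹ := by group
  _ = X * Y * (a * Y⁻¹) := by rw [h2]; group
  _ = X * Y * (X⁻¹ * (X * a) * Y⁻¹) := by group
  _ = X * Y * X⁻¹ * a := by rw [← h1]; group

lemma g_shift (h : a * b * a = b * a * b) : b⁻¹ * a⁻¹ * b = a * b⁻¹ * a⁻¹ := by
  have k := g_conj h
  calc b⁻¹ * a⁻¹ * b = b⁻¹ * (a⁻¹ * b * a) * a⁻¹ := by group
  _ = a * b⁻¹ * a⁻¹ := by rw [← k]; group

end grp

/-! ## The transversal -/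

/-- `σ_(d-1)⁻¹ ⋯ σ_(d-k)⁻¹` -/
def CC (d : ℕ) : ℕ → Braid (d + 1)
  | 0 => 1
  | k + 1 => CC d k * (sg (d + 1) (d - 1 - k))⁻¹

/-- `σ_(d-1)⁻¹ ⋯ σ_j⁻¹` -/
def C (d j : ℕ) : Braid (d + 1) := CC d (d - j)

lemma C_top (d : ℕ) : C d d = 1 := by rw [C, Nat.sub_self]; rfl

lemma C_succ {d j : ℕ} (h : j < d) : C d j = C d (j + 1) * (sg (d + 1) j)⁻¹ := by
  have h1 : d - j = (d - (j + 1)) + 1 := by omega
  rw [C, C, h1, CC, show d - 1 - (d - (j + 1)) = j by omega]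

lemma C_ind {d : ℕ} {P : ℕ → Prop} (h0 : P d) (hs : ∀ j, j < d → P (j + 1) → P j) :
    ∀ j, j ≤ d → P j := by
  intro j hj
  induction hk : d - j generalizing j with
  | zero =>
    rw [show j = d by omega]
    exact h0
  | succ k ih => exact hs j (by omega) (ih (j + 1) (by omega) (by omega))

lemma C_comm {d i j : ℕ} (hj : j ≤ d) (h : i + 1 < j) :
    sg (d + 1) i * C d j = C d j * sg (d + 1) i := by
  have key : ∀ j, j ≤ d → (i + 1 < j → sg (d + 1) i * C d j = C d j * sg (d + 1) i) := by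
    refine C_ind ?_ ?_
    · intro _
      rw [C_top, mul_one, one_mul]
    · intro j hj ih h
      have h1 := sg_comm (d := d + 1) h
      have h2 : sg (d + 1) i * (sg (d + 1) j)⁻¹ = (sg (d + 1) j)⁻¹ * sg (d + 1) i := by
        rw [mul_inv_eq_iff_eq_mul, mul_assoc, h1, inv_mul_cancel_left]
      rw [C_succ hj, ← mul_assoc, ih (by omega), mul_assoc, h2, mul_assoc]
  exact key j hj h

lemma C_shift {d i j : ℕ} (h : j ≤ i) (hi : i + 1 < d) :
    C d j * sg (d + 1) (i + 1) = sg (d + 1) i * C d j := by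
  have key : ∀ j, j ≤ d → (j ≤ i → C d j * sg (d + 1) (i + 1) = sg (d + 1) i * C d j) := by
    refine C_ind (fun h => absurd h (by omega)) ?_
    intro j hj ih h
    rcases Nat.lt_or_ge j i with h' | h'
    · have h1 := sg_comm (d := d + 1) (show j + 1 < i + 1 by omega)
      have h2 : (sg (d + 1) j)⁻¹ * sg (d + 1) (i + 1) = sg (d + 1) (i + 1) * (sg (d + 1) j)⁻¹ := by
        rw [inv_mul_eq_iff_eq_mul, ← mul_assoc, h1, mul_inv_cancel_right]
      rw [C_succ hj, mul_assoc, h2, ← mul_assoc, ih (by omega), mul_assoc]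
    · obtain rfl : j = i := by omega
      have hb := sg_braid (d := d + 1) (a := j) (by omega)
      have hc := C_comm (d := d) (i := j) (j := j + 1 + 1) (by omega) (by omega)
      rw [C_succ hj, C_succ hi]
      calc C d (j + 1 + 1) * (sg (d + 1) (j + 1))⁻¹ * (sg (d + 1) j)⁻¹ * sg (d + 1) (j + 1)
          = C d (j + 1 + 1) * ((sg (d + 1) (j + 1))⁻¹ * (sg (d + 1) j)⁻¹ * sg (d + 1) (j + 1)) := by
            group
      _ = (C d (j + 1 + 1) * sg (d + 1) j) * (sg (d + 1) (j + 1))⁻¹ * (sg (d + 1) j)⁻¹ := by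
            rw [g_shift hb]; group
      _ = sg (d + 1) j * (C d (j + 1 + 1) * (sg (d + 1) (j + 1))⁻¹ * (sg (d + 1) j)⁻¹) := by
            rw [← hc]; group
  exact key j (by omega) h

/-- the pure braid generators of the last strand -/
def A (d j : ℕ) : Braid (d + 1) :=
  C d (j + 1) * (sg (d + 1) j)⁻¹ * (sg (d + 1) j)⁻¹ * (C d (j + 1))⁻¹

lemma A_ne {d i j : ℕ} (hi : i + 1 < d) (hj : j < d) (h1 : j ≠ i) (h2 : j ≠ i + 1) :
    sg (d + 1) i * A d j = A d j * sg (d + 1) i := by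
  unfold A
  rcases Nat.lt_or_ge j i with h | h
  · exact g_comm (C_shift (d := d) (i := i) (j := j + 1) (by omega) hi).symm
      (sg_comm (d := d + 1) (show j + 1 < i + 1 by omega)).symm
  · exact g_comm (C_comm (d := d) (i := i) (j := j + 1) (by omega) (by omega))
      (sg_comm (d := d + 1) (show i + 1 < j by omega))

lemma A_hi {d i : ℕ} (hi : i + 1 < d) : sg (d + 1) i * A d (i + 1) = A d i * sg (d + 1) i := by
  have hb := sg_braid (d := d + 1) (a := i) (by omega)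
  have hc := C_comm (d := d) (i := i) (j := i + 1 + 1) (by omega) (by omega)
  unfold A
  rw [C_succ hi]
  exact g_hi hb hc

lemma A_lo {d i : ℕ} (hi : i + 1 < d) :
    sg (d + 1) i * A d i = A d i * A d (i + 1) * (A d i)⁻¹ * sg (d + 1) i := by
  have hb := sg_braid (d := d + 1) (a := i) (by omega)
  have hc := C_comm (d := d) (i := i) (j := i + 1 + 1) (by omega) (by omega)
  unfold A
  rw [C_succ hi]
  exact g_lo hb hc

/-! ## The homomorphism -/

lemma iota_rels {d : ℕ} :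
    ∀ r ∈ braidRels d, FreeGroup.lift (fun i : Fin (d - 1) => sg (d + 1) i) r = 1 := by
  rintro r ⟨i, j, ⟨hij, rfl⟩ | ⟨hij, rfl⟩⟩
  · rw [map_mul, map_inv, mul_inv_eq_one]
    simp only [map_mul, FreeGroup.lift_apply_of]
    rw [← hij]
    exact sg_braid (by omega)
  · rw [map_mul, map_inv, mul_inv_eq_one]
    simp only [map_mul, FreeGroup.lift_apply_of]
    exact sg_comm hij

/-- the inclusion of the braid group on the first `d` strands -/
def iota (d : ℕ) : Braid d →* Braid (d + 1) := PresentedGroup.toGroup iota_rels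

lemma iota_sigma {d : ℕ} (i : Fin (d - 1)) : iota d (sigma i) = sg (d + 1) i :=
  PresentedGroup.toGroup.of iota_rels

/-- the free group of the last strand -/
def push (d : ℕ) : FreeGroup (Fin d) →* Braid (d + 1) := FreeGroup.lift fun j => A d j

lemma push_gen {d : ℕ} (j : Fin d) : push d (gen j) = A d j := FreeGroup.lift_apply_of ..

lemma push_artinAut {d : ℕ} (i : Fin (d - 1)) (w : FreeGroup (Fin d)) :
    push d (artinAut i w) = sg (d + 1) i * push d w * (sg (d + 1) i)⁻¹ := by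
  have h : (push d).comp (artinAut i).toMonoidHom =
      (MulAut.conj (sg (d + 1) i)).toMonoidHom.comp (push d) := by
    apply FreeGroup.ext_hom
    intro k
    change push d (artinAut i (gen k)) = sg (d + 1) i * push d (gen k) * (sg (d + 1) i)⁻¹
    rw [eq_mul_inv_iff_mul_eq, push_gen]
    have hi' : (i : ℕ) + 1 < d := by omega
    by_cases h1 : k = lo i
    · subst h1
      rw [artinAut_lo, map_mul, map_mul, map_inv, push_gen, push_gen]
      exact (A_lo hi').symm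
    · by_cases h2 : k = hi i
      · subst h2
        rw [artinAut_hi, push_gen]
        exact (A_hi hi').symm
      · rw [artinAut_of_ne h1 h2, push_gen]
        refine (A_ne hi' k.2 (fun h => h1 (Fin.ext h)) fun h => h2 (Fin.ext h)).symm
  exact DFunLike.congr_fun h w

lemma push_artin {d : ℕ} (g : Braid d) :
    ∀ w, push d (artin d g w) = iota d g * push d w * (iota d g)⁻¹ := by
  induction g using braid_induction with
  | h1 => intro w; rw [map_one, map_one, MulAut.one_apply]; group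
  | hs i => intro w; rw [artin_sigma, iota_sigma, push_artinAut]
  | hm a b ha hb =>
    intro w
    rw [map_mul, MulAut.mul_apply, ha, hb, map_mul]
    group
  | hi a ha =>
    intro w
    have h1 := ha (artin d a⁻¹ w)
    rw [← MulAut.mul_apply, ← map_mul, mul_inv_cancel, map_one, MulAut.one_apply] at h1
    rw [h1, map_inv (iota d)]
    group

/-- the stabiliser of the last strand -/
def Psi (d : ℕ) : D d →* Braid (d + 1) :=
  SemidirectProduct.lift (push d) (iota d) (fun g => MonoidHom.ext fun w => push_artin g w)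

lemma Psi_inl {d : ℕ} (w : FreeGroup (Fin d)) : Psi d (SemidirectProduct.inl w) = push d w :=
  SemidirectProduct.lift_inl ..

lemma Psi_inr {d : ℕ} (g : Braid d) : Psi d (SemidirectProduct.inr g) = iota d g :=
  SemidirectProduct.lift_inr ..

lemma Psi_sD {d m : ℕ} (h : m + 1 < d) : Psi d (sD d m) = sg (d + 1) m := by
  rw [sD_of (show m < d - 1 by omega), Psi_inr, iota_sigma]

lemma Psi_xD {d m : ℕ} (h : m < d) : Psi d (xD d m) = A d m := by
  rw [xD_of h, Psi_inl, push_gen]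

/-- the main identity for the generators -/
lemma C_mul_sigma {d i j : ℕ} (hi : i < d) (hj : j ≤ d) :
    C d j * sg (d + 1) i = Psi d (cD d i j) * C d (tn i j) := by
  rcases Nat.lt_or_ge j i with h | h
  · obtain ⟨m, rfl⟩ : ∃ m, i = m + 1 := ⟨i - 1, by omega⟩
    rw [tn_ne (by omega) (by omega), cD_lt h, show m + 1 - 1 = m by omega, Psi_sD hi]
    exact C_shift (by omega) hi
  rcases Nat.eq_or_lt_of_le h with rfl | h
  · rw [tn_self, cD_self, map_one, one_mul, C_succ hi, inv_mul_cancel_right]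
  rcases Nat.eq_or_lt_of_le (show i + 1 ≤ j from h) with rfl | h
  · rw [tn_succ, cD_succ, map_inv, Psi_xD hi, C_succ hi, A]
    group
  · rw [tn_ne (by omega) (by omega), cD_gt h, Psi_sD (by omega)]
    exact (C_comm hj h).symm

/-- the main identity -/
theorem C_mul {d : ℕ} (g : Braid (d + 1)) : ∀ j : Fin (d + 1),
    C d j * g = Psi d ((Phi d g).left j) * C d (((Phi d g).right⁻¹ j : Fin (d + 1)) : ℕ) := by
  induction g using braid_induction with
  | h1 =>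
    intro j
    rw [map_one, one_left_apply, map_one, mul_one, one_mul]
    rfl
  | hs i =>
    intro j
    rw [Phi_sigma, TT_left, TT_right, Equiv.swap_inv, swap_val, sigma_eq]
    exact C_mul_sigma i.2 (by omega)
  | hm a b ha hb =>
    intro j
    rw [map_mul, mul_left_apply, ← mul_assoc, ha, mul_assoc, hb, ← mul_assoc, ← map_mul]
    rfl
  | hi a ha =>
    intro j
    have h1 := ha ((Phi d a).right j)
    have e : (Phi d a).right⁻¹ ((Phi d a).right j) = j := (Phi d a).right.symm_apply_apply j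
    rw [e] at h1
    rw [map_inv, inv_left_apply, SemidirectProduct.inv_right, inv_inv, mul_inv_eq_iff_eq_mul,
      mul_assoc, h1, map_inv, inv_mul_cancel_left]

end Pool.Agent.Lib.MP347126
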