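import Mathlib
import Pool.Agent.Lib.MP_347126_al.Psi

section
/-!
# MP_347126_al: powers of a generator in a free group are conjugacy separated
-/
set_option autoImplicit false
set_option linter.unusedSectionVars false

namespace Pool.Agent.Lib.MP347126

open Finset

/-- a partial injection of a finite set extends to a permutation -/
lemma exists_perm_extend {X : Type*} [Fintype X] [DecidableEq X] (s : Finset X) (f : X → X)
    (hf : Set.InjOn f s) : ∃ g : Equiv.Perm X, ∀ x ∈ s, g x = f x := by
  let p : X → Prop := fun x => x ∈ s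
  let q : X → Prop := fun x => x ∈ s.image f
  let e' : {x // p x} ≃ {x // q x} :=
    Equiv.ofBijective (fun x : {x // p x} => (⟨f x.1, mem_image_of_mem f x.2⟩ : {x // q x}))
      ⟨fun x y h => Subtype.ext (hf x.2 y.2 (congrArg Subtype.val h)), fun y => by
        obtain ⟨x, hx, h⟩ := mem_image.1 y.2
        exact ⟨⟨x, hx⟩, Subtype.ext h⟩⟩
  refine ⟨e'.extendSubtype, fun x hx => ?_⟩
  rw [Equiv.extendSubtype_apply_of_mem e' x hx]
  rfl

section cycle

variable {α : Type} [DecidableEq α] {n : ℕ} [NeZero n] (l : ZMod n → α × Bool)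

/-- the word `l` is cyclically reduced -/
def Cyc : Prop := ∀ k, (l k).1 = (l (k + 1)).1 → (l k).2 = (l (k + 1)).2

variable {l}

/-- the permutations of the vertices of the cycle -/
lemma exists_perms (h : Cyc l) : ∃ P : α → Equiv.Perm (ZMod n),
    (∀ k, (l k).2 = true → P (l k).1 (k + 1) = k) ∧
    ∀ k, (l k).2 = false → P (l k).1 k = k + 1 := by
  classical
  have key : ∀ a, ∃ g : Equiv.Perm (ZMod n), (∀ k, l k = (a, true) → g (k + 1) = k) ∧
      ∀ k, l k = (a, false) → g k = k + 1 := by
    intro a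
    obtain ⟨g, hg⟩ := exists_perm_extend
      (univ.filter fun m : ZMod n => l (m - 1) = (a, true) ∨ l m = (a, false))
      (fun m => if l m = (a, false) then m + 1 else m - 1) (by
        intro x hx y hy hxy
        simp only [coe_filter, mem_univ, true_and, Set.mem_ofPred_eq] at hx hy
        have conf : ∀ m, l m = (a, false) → l (m + 1) = (a, true) → False := by
          intro m h1 h2
          have h3 := h m (by rw [h1, h2])
          rw [h1, h2] at h3
          exact absurd h3 (by simp)
        simp only at hxy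
        by_cases h1 : l x = (a, false) <;> by_cases h2 : l y = (a, false)
        · rw [if_pos h1, if_pos h2] at hxy
          exact add_right_cancel hxy
        · rw [if_pos h1, if_neg h2] at hxy
          rcases hy with hy | hy
          · rw [← hxy] at hy
            exact (conf x h1 hy).elim
          · exact absurd hy h2
        · rw [if_neg h1, if_pos h2] at hxy
          rcases hx with hx | hx
          · rw [hxy] at hx
            exact (conf y h2 hx).elim
          · exact absurd hx h1
        · rw [if_neg h1, if_neg h2] at hxy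
          exact sub_left_injective hxy)
    refine ⟨g, fun k hk => ?_, fun k hk => ?_⟩
    · have h1 : l (k + 1) ≠ (a, false) := by
        intro h2
        have h3 := h k (by rw [hk, h2])
        rw [hk, h2] at h3
        exact absurd h3 (by simp)
      rw [hg (k + 1) (by simp [hk]), if_neg h1, add_sub_cancel_right]
    · rw [hg k (by simp [hk]), if_pos hk]
  choose P hP using key
  refine ⟨P, fun k hk => (hP (l k).1).1 k ?_, fun k hk => (hP (l k).1).2 k ?_⟩
  · rw [← hk]
  · rw [← hk]

/-- a permutation with a shift -/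
def shiftPerm {N : ℕ} (g : Equiv.Perm (ZMod n)) (s : ZMod n → ZMod N) :
    Equiv.Perm (ZMod n × ZMod N) where
  toFun x := (g x.1, x.2 + s x.1)
  invFun x := (g⁻¹ x.1, x.2 - s (g⁻¹ x.1))
  left_inv x := by simp
  right_inv x := by simp

lemma shiftPerm_apply {N : ℕ} (g : Equiv.Perm (ZMod n)) (s : ZMod n → ZMod N) (x : ZMod n × ZMod N) :
    shiftPerm g s x = (g x.1, x.2 + s x.1) := rfl

lemma shiftPerm_inv_apply {N : ℕ} (g : Equiv.Perm (ZMod n)) (s : ZMod n → ZMod N)
    {k m : ZMod n} (h : g m = k) (z : ZMod N) :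
    (shiftPerm g s)⁻¹ (k, z) = (m, z - s m) := by
  rw [Equiv.Perm.inv_eq_iff_eq, shiftPerm_apply, h]
  simp

/-- the shift of a letter -/
def w0 (N : ℕ) (b : α) (x : α × Bool) : ZMod N := if x.1 = b then (if x.2 then 1 else -1) else 0

/-- The action: `b` shifts by one everywhere, and the word has the total shift `c`. -/
lemma exists_action (h : Cyc l) (b : α) (e : ZMod n) (he : (l e).1 ≠ b) (N : ℕ) (δ : ZMod N) :
    ∃ q : FreeGroup α →* Equiv.Perm (ZMod n × ZMod N),
      (∀ x, (q (FreeGroup.of b) x).2 = x.2 + 1) ∧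
      ∀ k z, q (FreeGroup.mk [l k]) (k + 1, z) =
        (k, z + (w0 N b (l k) + if k = e then δ else 0)) := by
  obtain ⟨P, hP1, hP2⟩ := exists_perms h
  set src : ZMod n := if (l e).2 then e + 1 else e with hsrc
  set δ' : ZMod N := if (l e).2 then δ else -δ with hδ'
  set s : α → ZMod n → ZMod N := fun a m =>
    if a = b then 1 else if a = (l e).1 ∧ m = src then δ' else 0 with hs
  refine ⟨FreeGroup.lift fun a => shiftPerm (P a) (s a), fun x => ?_, fun k z => ?_⟩
  · rw [FreeGroup.lift_apply_of, shiftPerm_apply]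
    simp [hs]
  · cases hk : (l k).2 with
    | true =>
      have h1 : FreeGroup.mk [l k] = FreeGroup.of (l k).1 := by
        rw [FreeGroup.of, ← hk]
      rw [h1, FreeGroup.lift_apply_of, shiftPerm_apply, hP1 k hk]
      refine Prod.ext rfl ?_
      simp only [hs, w0, hk, if_true]
      by_cases hb : (l k).1 = b
      · have hke : k ≠ e := fun h => he (h ▸ hb)
        rw [if_pos hb, if_pos hb, if_neg hke, add_zero]
      · rw [if_neg hb, if_neg hb, zero_add]
        by_cases hke : k = e
        · subst hke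
          rw [if_pos rfl, if_pos ⟨rfl, by rw [hsrc, hk, if_pos rfl]⟩, hδ', hk, if_pos rfl]
        · rw [if_neg hke, if_neg]
          rintro ⟨h2, h3⟩
          cases he2 : (l e).2 with
          | true =>
            rw [hsrc, he2, if_pos rfl] at h3
            exact hke (add_right_cancel h3)
          | false =>
            rw [hsrc, he2] at h3
            simp only [Bool.false_eq_true, if_false] at h3
            have h4 := h k (by rw [h3, h2])
            rw [h3, hk, he2] at h4
            exact absurd h4 (by simp)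
    | false =>
      have h1 : FreeGroup.mk [l k] = (FreeGroup.of (l k).1)⁻¹ := by
        have h0 : l k = ((l k).1, false) := Prod.ext rfl hk
        rw [FreeGroup.of, FreeGroup.inv_mk, h0]
        rfl
      rw [h1, map_inv, FreeGroup.lift_apply_of, shiftPerm_inv_apply _ _ (hP2 k hk)]
      refine Prod.ext rfl ?_
      simp only [hs, w0, hk]
      by_cases hb : (l k).1 = b
      · have hke : k ≠ e := fun h => he (h ▸ hb)
        rw [if_pos hb, if_pos hb, if_neg hke, add_zero]
        simp [sub_eq_add_neg]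
      · rw [if_neg hb, if_neg hb, zero_add]
        by_cases hke : k = e
        · subst hke
          rw [if_pos rfl, if_pos ⟨rfl, by rw [hsrc, hk]; simp⟩, hδ', hk]
          simp
        · rw [if_neg hke, if_neg, sub_zero, add_zero]
          rintro ⟨h2, h3⟩
          cases he2 : (l e).2 with
          | true =>
            rw [hsrc, he2, if_pos rfl] at h3
            have h4 := h e (by rw [← h3, h2])
            rw [← h3, hk, he2] at h4
            exact absurd h4 (by simp)
          | false =>
            rw [hsrc, he2] at h3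
            simp only [Bool.false_eq_true, if_false] at h3
            exact hke h3

end cycle

section word

variable {α : Type} [DecidableEq α]

/-- the cyclic word of a list -/
def letter (L : List (α × Bool)) (hL : L.length ≠ 0) (k : ZMod L.length) : α × Bool :=
  L[k.val]'(@ZMod.val_lt _ ⟨hL⟩ k)

lemma letter_natCast (L : List (α × Bool)) (hL : L.length ≠ 0) {i : ℕ} (hi : i < L.length) :
    letter L hL (i : ZMod L.length) = L[i] := by
  have : NeZero L.length := ⟨hL⟩
  unfold letter
  congr 1
  exact ZMod.val_cast_of_lt hi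

lemma cyc_letter {L : List (α × Bool)} (h : FreeGroup.IsCyclicallyReduced L) (hL : L.length ≠ 0) :
    Cyc (letter L hL) := by
  have : NeZero L.length := ⟨hL⟩
  intro k
  have hkl := ZMod.val_lt k
  have ek : ((k.val : ℕ) : ZMod L.length) = k := ZMod.natCast_zmod_val k
  have a1 : letter L hL k = L[k.val] := rfl
  by_cases h1 : k.val + 1 < L.length
  · have e1 : k + 1 = ((k.val + 1 : ℕ) : ZMod L.length) := by
      rw [Nat.cast_add, ek, Nat.cast_one]
    rw [a1, e1, letter_natCast L hL h1]
    exact List.isChain_iff_getElem.1 h.1 k.val h1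
  · have e1 : k + 1 = ((0 : ℕ) : ZMod L.length) := by
      have e2 : k.val + 1 = L.length := by omega
      rw [← ek, ← Nat.cast_one, ← Nat.cast_add, e2, Nat.cast_zero]
      exact ZMod.natCast_self _
    rw [a1, e1, letter_natCast L hL (by omega)]
    refine h.2 _ ?_ _ ?_
    · rw [List.getLast?_eq_getElem?, show L.length - 1 = k.val by omega,
        List.getElem?_eq_getElem hkl]
      rfl
    · rw [List.head?_eq_getElem?, List.getElem?_eq_getElem (by omega)]
      rfl

variable {N : ℕ} {b : α}

/-- the action of the tails of the word -/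
lemma drop_action {L : List (α × Bool)} (hL : L.length ≠ 0)
    (q : FreeGroup α →* Equiv.Perm (ZMod L.length × ZMod N)) (w : ZMod L.length → ZMod N)
    (hq : ∀ k z, q (FreeGroup.mk [letter L hL k]) (k + 1, z) = (k, z + w k)) (z : ZMod N) :
    ∀ j, j ≤ L.length → q (FreeGroup.mk (L.drop (L.length - j))) (0, z) =
      (((L.length - j : ℕ) : ZMod L.length), z + ∑ i ∈ Finset.range j,
        w ((L.length - 1 - i : ℕ) : ZMod L.length)) := by
  intro j
  induction j with
  | zero =>
    intro _
    rw [Nat.sub_zero, List.drop_length, sum_range_zero, add_zero, ZMod.natCast_self]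
    change q 1 (0, z) = _
    rw [map_one, Equiv.Perm.one_apply]
  | succ j ih =>
    intro hj
    have ih := ih (by omega)
    have h1 : L.length - (j + 1) < L.length := by omega
    have h2 : L.length - (j + 1) + 1 = L.length - j := by omega
    rw [List.drop_eq_getElem_cons h1, h2]
    have h3 : FreeGroup.mk (L[L.length - (j + 1)] :: L.drop (L.length - j)) =
        FreeGroup.mk [L[L.length - (j + 1)]] * FreeGroup.mk (L.drop (L.length - j)) := by
      rw [FreeGroup.mul_mk]; rfl
    rw [h3, map_mul, Equiv.Perm.mul_apply, ih, ← letter_natCast L hL h1]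
    have h4 : ((L.length - j : ℕ) : ZMod L.length) =
        ((L.length - (j + 1) : ℕ) : ZMod L.length) + 1 := by
      rw [← h2, Nat.cast_add, Nat.cast_one]
    rw [h4, hq, sum_range_succ, add_assoc]
    rw [show L.length - 1 - j = L.length - (j + 1) by omega]

/-- A cyclically reduced word with a letter different from `b`: there is an action on a finite set
on which `b` shifts by one and the word has any given shift. -/
theorem exists_hom {L : List (α × Bool)} (h : FreeGroup.IsCyclicallyReduced L) {x : α × Bool}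
    (hx : x ∈ L) (hxb : x.1 ≠ b) (N : ℕ) (c : ZMod N) :
    ∃ (n : ℕ) (_ : NeZero n) (q : FreeGroup α →* Equiv.Perm (ZMod n × ZMod N)),
      (∀ y, (q (FreeGroup.of b) y).2 = y.2 + 1) ∧
      q (FreeGroup.mk L) (0, 0) = (0, c) := by
  have hL : L.length ≠ 0 := by
    intro h0
    rw [List.length_eq_zero_iff] at h0
    subst h0
    exact absurd hx (by simp)
  have hne : NeZero L.length := ⟨hL⟩
  obtain ⟨i, hi, hix⟩ := List.getElem_of_mem hx
  set e : ZMod L.length := (i : ZMod L.length) with he
  have hle : letter L hL e = x := by rw [he, letter_natCast L hL hi, hix]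
  set T : ZMod N := ∑ i ∈ Finset.range L.length,
    w0 N b (letter L hL ((L.length - 1 - i : ℕ) : ZMod L.length)) with hT
  obtain ⟨q, hq1, hq2⟩ := exists_action (cyc_letter h hL) b e (by rw [hle]; exact hxb) N (c - T)
  refine ⟨L.length, hne, q, hq1, ?_⟩
  have h1 := drop_action hL q _ hq2 0 L.length le_rfl
  rw [Nat.sub_self, List.drop_zero, Nat.cast_zero, zero_add, sum_add_distrib] at h1
  rw [h1]
  refine Prod.ext rfl ?_
  change T + _ = c
  rw [sum_eq_single (L.length - 1 - i)]
  · rw [if_pos, add_sub_cancel]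
    rw [he]
    congr 1
    omega
  · intro j hj hji
    rw [if_neg]
    intro h2
    rw [he, ZMod.natCast_eq_natCast_iff', Nat.mod_eq_of_lt (by omega), Nat.mod_eq_of_lt hi] at h2
    rw [Finset.mem_range] at hj
    omega
  · intro h2
    rw [Finset.mem_range] at h2
    omega

end word

/-! ## The theorem -/

section main

variable {α : Type} [DecidableEq α]

lemma shift_zpow {n N : ℕ} {g : Equiv.Perm (ZMod n × ZMod N)} (h : ∀ y, (g y).2 = y.2 + 1) (j : ℤ)
    (y : ZMod n × ZMod N) : ((g ^ j) y).2 = y.2 + j := by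
  have hn : ∀ (m : ℕ) (y : ZMod n × ZMod N), ((g ^ m) y).2 = y.2 + m := by
    intro m
    induction m with
    | zero => intro y; simp
    | succ m ih =>
      intro y
      rw [pow_succ', Equiv.Perm.mul_apply, h, ih, Nat.cast_add, Nat.cast_one, add_assoc]
  obtain ⟨m, rfl | rfl⟩ := j.eq_nat_or_neg
  · rw [zpow_natCast, hn, Int.cast_natCast]
  · have h1 := hn m ((g ^ (-(m : ℤ))) y)
    rw [zpow_neg, zpow_natCast, ← Equiv.Perm.mul_apply, mul_inv_cancel, Equiv.Perm.one_apply] at h1
    rw [zpow_neg, zpow_natCast, h1, Int.cast_neg, Int.cast_natCast]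
    ring

lemma mk_all {b : α} {L : List (α × Bool)} (h : ∀ x ∈ L, x.1 = b) :
    ∃ i : ℤ, FreeGroup.mk L = FreeGroup.of b ^ i := by
  induction L with
  | nil => exact ⟨0, by simp; rfl⟩
  | cons x L ih =>
    obtain ⟨i, hi⟩ := ih fun y hy => h y (List.mem_cons_of_mem _ hy)
    have hx := h x List.mem_cons_self
    have h3 : FreeGroup.mk (x :: L) = FreeGroup.mk [x] * FreeGroup.mk L := by
      rw [FreeGroup.mul_mk]; rfl
    rw [h3, hi]
    cases hs : x.2 with
    | true =>
      refine ⟨1 + i, ?_⟩
      have : x = (b, true) := Prod.ext hx hs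
      rw [this, zpow_add, zpow_one]
      rfl
    | false =>
      refine ⟨-1 + i, ?_⟩
      have : x = (b, false) := Prod.ext hx hs
      rw [this, zpow_add, zpow_neg, zpow_one]
      rfl

/-- Powers of a generator of a free group are conjugacy separated from all other elements. -/
theorem free_sep (b : α) (j : ℤ) (v : FreeGroup α)
    (h : ∀ (Q : Type) (_ : Group Q) (_ : Finite Q) (q : FreeGroup α →* Q),
      IsConj (q v) (q (FreeGroup.of b ^ j))) : IsConj v (FreeGroup.of b ^ j) := by
  set L := FreeGroup.reduceCyclically v.toWord with hL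
  have hc : FreeGroup.IsCyclicallyReduced L :=
    FreeGroup.reduceCyclically.isCyclicallyReduced FreeGroup.isReduced_toWord
  have hv : IsConj v (FreeGroup.mk L) := by
    have h1 := congrArg FreeGroup.mk
      (FreeGroup.reduceCyclically.conj_conjugator_reduceCyclically v.toWord)
    rw [FreeGroup.mk_toWord, ← FreeGroup.mul_mk, ← FreeGroup.mul_mk, ← FreeGroup.inv_mk] at h1
    rw [← h1]
    exact (isConj_iff.2 ⟨_, rfl⟩ : IsConj (FreeGroup.mk L) _).symm
  have h' : ∀ (Q : Type) (_ : Group Q) (_ : Finite Q) (q : FreeGroup α →* Q),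
      IsConj (q (FreeGroup.mk L)) (q (FreeGroup.of b ^ j)) := fun Q _ _ q =>
    (MonoidHom.map_isConj q hv.symm).trans (h Q _ ‹_› q)
  by_cases hall : ∀ x ∈ L, x.1 = b
  · obtain ⟨i, hi⟩ := mk_all hall
    rw [hi] at hv h'
    have hij : i = j := by
      by_contra hne
      obtain ⟨N, hN⟩ : ∃ N : ℕ, N = (i - j).natAbs + 1 := ⟨_, rfl⟩
      have hN0 : NeZero N := ⟨by omega⟩
      have h1 := h' (Multiplicative (ZMod N)) inferInstance inferInstance
        (FreeGroup.lift fun a => Multiplicative.ofAdd (if a = b then 1 else 0))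
      rw [isConj_iff_eq, map_zpow, map_zpow, FreeGroup.lift_apply_of, if_pos rfl] at h1
      have h2 := congrArg Multiplicative.toAdd h1
      rw [toAdd_zpow, toAdd_zpow, toAdd_ofAdd, zsmul_one, zsmul_one, ← sub_eq_zero, ← Int.cast_sub,
        ZMod.intCast_zmod_eq_zero_iff_dvd] at h2
      have h3 := Int.natAbs_dvd_natAbs.2 h2
      rw [Int.natAbs_natCast] at h3
      have h4 : (i - j).natAbs ≠ 0 := by omega
      have := Nat.le_of_dvd (Nat.pos_of_ne_zero h4) h3
      omega
    rwa [hij] at hv
  · exfalso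
    push Not at hall
    obtain ⟨x, hx, hxb⟩ := hall
    rcases eq_or_ne j 0 with rfl | hj
    · obtain ⟨n, _, q, hq1, hq2⟩ := exists_hom hc hx hxb 2 1
      have h1 := h' _ inferInstance inferInstance q
      rw [zpow_zero, map_one, isConj_one_left] at h1
      rw [h1, Equiv.Perm.one_apply] at hq2
      have h2 : (0 : ZMod 2) = 1 := congrArg Prod.snd hq2
      exact absurd h2 (by decide)
    · obtain ⟨N, hN⟩ : ∃ N : ℕ, N = j.natAbs + 1 := ⟨_, rfl⟩
      have hN0 : NeZero N := ⟨by omega⟩
      obtain ⟨n, _, q, hq1, hq2⟩ := exists_hom hc hx hxb N 0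
      have h1 := h' _ inferInstance inferInstance q
      obtain ⟨g, hg⟩ := isConj_iff.1 h1
      have h2 : (q (FreeGroup.of b ^ j)) (g (0, 0)) = g (0, 0) := by
        rw [← hg, ← Equiv.Perm.mul_apply, inv_mul_cancel_right, Equiv.Perm.mul_apply, hq2]
      have h3 := shift_zpow hq1 j (g (0, 0))
      rw [map_zpow] at h2
      rw [h2] at h3
      have h4 : (j : ZMod N) = 0 := by
        have := h3.symm
        rwa [add_eq_left] at this
      rw [ZMod.intCast_zmod_eq_zero_iff_dvd] at h4
      have h5 := Int.natAbs_dvd_natAbs.2 h4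
      rw [Int.natAbs_natCast] at h5
      have := Nat.le_of_dvd (by omega) h5
      omega

end main

end Pool.Agent.Lib.MP347126
end

section
/-!
# MP_347126_al: faithfulness, residual finiteness
-/
set_option autoImplicit false

namespace Pool.Agent.Lib.MP347126

open MPd28408

/-! ## Permutations -/

lemma pm_rels {n : ℕ} : ∀ r ∈ braidRels n,
    FreeGroup.lift (fun i : Fin (n - 1) => Equiv.swap (lo i) (hi i)) r = 1 := by
  have sv : ∀ (i : Fin (n - 1)) (k : Fin n), ((Equiv.swap (lo i) (hi i)) k : ℕ) = tn i k := by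
    intro i k
    rw [Equiv.swap_apply_def]
    unfold tn
    have h1 : (k = lo i) ↔ (k : ℕ) = i := ⟨fun h => congrArg Fin.val h, fun h => Fin.ext h⟩
    have h2 : (k = hi i) ↔ (k : ℕ) = i + 1 := ⟨fun h => congrArg Fin.val h, fun h => Fin.ext h⟩
    simp only [h1, h2]
    split_ifs <;> rfl
  rintro r ⟨i, j, ⟨hij, rfl⟩ | ⟨hij, rfl⟩⟩
  · rw [map_mul, map_inv, mul_inv_eq_one]
    simp only [map_mul, FreeGroup.lift_apply_of]
    apply perm_ext_val
    intro k
    simp only [Equiv.Perm.mul_apply, sv]
    rw [← hij]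
    exact tn_braid _ _
  · rw [map_mul, map_inv, mul_inv_eq_one]
    simp only [map_mul, FreeGroup.lift_apply_of]
    apply perm_ext_val
    intro k
    simp only [Equiv.Perm.mul_apply, sv]
    exact tn_comm hij _

/-- the permutation of a braid -/
def pm (n : ℕ) : Braid n →* Equiv.Perm (Fin n) := PresentedGroup.toGroup pm_rels

lemma pm_sigma {n : ℕ} (i : Fin (n - 1)) : pm n (sigma i) = Equiv.swap (lo i) (hi i) :=
  PresentedGroup.toGroup.of pm_rels

lemma Phi_right {d : ℕ} (g : Braid (d + 1)) : (Phi d g).right = pm (d + 1) g := by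
  induction g using braid_induction with
  | h1 => rw [map_one, map_one]; rfl
  | hs i => rw [Phi_sigma, pm_sigma]; rfl
  | hm a b ha hb => rw [map_mul, map_mul, SemidirectProduct.mul_right, ha, hb]
  | hi a ha => rw [map_inv, map_inv, SemidirectProduct.inv_right, ha]

/-- the component of a braid -/
def comp {d : ℕ} (g : Braid (d + 1)) (j : Fin (d + 1)) : D d := (Phi d g).left j

lemma comp_mul {d : ℕ} (a b : Braid (d + 1)) (j : Fin (d + 1)) :
    comp (a * b) j = comp a j * comp b ((pm (d + 1) a)⁻¹ j) := by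
  unfold comp
  rw [map_mul, mul_left_apply, Phi_right]

lemma comp_one {d : ℕ} (j : Fin (d + 1)) : comp (1 : Braid (d + 1)) j = 1 := by
  unfold comp
  rw [map_one]
  rfl

lemma comp_inv {d : ℕ} (a : Braid (d + 1)) (j : Fin (d + 1)) :
    comp a⁻¹ j = (comp a (pm (d + 1) a j))⁻¹ := by
  unfold comp
  rw [map_inv, inv_left_apply, Phi_right]

lemma C_mul' {d : ℕ} (g : Braid (d + 1)) (j : Fin (d + 1)) :
    C d j * g = Psi d (comp g j) * C d (((pm (d + 1) g)⁻¹ j : Fin (d + 1)) : ℕ) := by
  rw [← Phi_right]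
  exact C_mul g j

/-- a braid which fixes the last strand is determined by its component -/
lemma eq_Psi {d : ℕ} (g : Braid (d + 1)) (h : pm (d + 1) g (Fin.last d) = Fin.last d) :
    g = Psi d (comp g (Fin.last d)) := by
  have h1 := C_mul' g (Fin.last d)
  have h2 : (pm (d + 1) g)⁻¹ (Fin.last d) = Fin.last d := by
    rw [Equiv.Perm.inv_eq_iff_eq, h]
  rw [h2, Fin.val_last, C_top, one_mul, mul_one] at h1
  exact h1

lemma comp_sigma {d : ℕ} {i : ℕ} (hi : i < d) (j : Fin (d + 1)) :
    comp (sg (d + 1) i) j = cD d i j := by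
  rw [sg_of (show i < d + 1 - 1 by omega)]
  unfold comp
  rw [Phi_sigma, TT_left]

lemma pm_sg {d : ℕ} {i : ℕ} (hi : i < d) (k : Fin (d + 1)) :
    ((pm (d + 1) (sg (d + 1) i) k : Fin (d + 1)) : ℕ) = tn i k := by
  rw [sg_of (show i < d + 1 - 1 by omega), pm_sigma, swap_val]

lemma pm_sg_inv {d : ℕ} {i : ℕ} (hi : i < d) :
    (pm (d + 1) (sg (d + 1) i))⁻¹ = pm (d + 1) (sg (d + 1) i) := by
  rw [sg_of (show i < d + 1 - 1 by omega), pm_sigma, Equiv.swap_inv]

/-- the transversal: trivial components along the last strand -/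
lemma comp_C {d : ℕ} : ∀ j, j ≤ d → comp (C d j) (Fin.last d) = 1 ∧
    (((pm (d + 1) (C d j))⁻¹ (Fin.last d) : Fin (d + 1)) : ℕ) = j := by
  refine C_ind ?_ ?_
  · rw [C_top, comp_one, map_one]
    exact ⟨rfl, rfl⟩
  · intro j hj ih
    obtain ⟨h1, h2⟩ := ih
    rw [C_succ hj]
    have h3 : (((pm (d + 1) (sg (d + 1) j)) ((pm (d + 1) (C d (j + 1)))⁻¹ (Fin.last d)) :
        Fin (d + 1)) : ℕ) = j := by
      rw [pm_sg hj, h2, tn_succ]
    constructor
    · rw [comp_mul, h1, one_mul, comp_inv, comp_sigma hj, h3, cD_self, inv_one]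
    · rw [map_mul, mul_inv_rev, map_inv, inv_inv, Equiv.Perm.mul_apply, h3]

lemma comp_C_inv {d j : ℕ} (hj : j ≤ d) {k : Fin (d + 1)} (hk : (k : ℕ) = j) :
    comp (C d j)⁻¹ k = 1 ∧ (pm (d + 1) (C d j)⁻¹)⁻¹ k = Fin.last d := by
  obtain ⟨h1, h2⟩ := comp_C j hj
  have h3 : pm (d + 1) (C d j) k = Fin.last d := by
    have h4 : (pm (d + 1) (C d j))⁻¹ (Fin.last d) = k := Fin.ext (h2.trans hk.symm)
    rw [← h4, ← Equiv.Perm.mul_apply, mul_inv_cancel, Equiv.Perm.one_apply]
  constructor
  · rw [comp_inv, h3, h1, inv_one]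
  · rw [map_inv, inv_inv, h3]

/-- the components of the pure generators -/
lemma comp_A {d j : ℕ} (hj : j < d) : comp (A d j) (Fin.last d) = xD d j ∧
    pm (d + 1) (A d j) = 1 := by
  constructor
  · unfold A
    obtain ⟨h1, h2⟩ := comp_C (d := d) (j + 1) hj
    have hs : ∀ k : Fin (d + 1), (k : ℕ) = j + 1 → comp (sg (d + 1) j)⁻¹ k = 1 ∧
        ((((pm (d + 1) (sg (d + 1) j)⁻¹)⁻¹ k : Fin (d + 1))) : ℕ) = j := by
      intro k hk
      have h3 : ((pm (d + 1) (sg (d + 1) j) k : Fin (d + 1)) : ℕ) = j := by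
        rw [pm_sg hj, hk, tn_succ]
      constructor
      · rw [comp_inv, comp_sigma hj, h3, cD_self, inv_one]
      · rw [map_inv, inv_inv, h3]
    have hs' : ∀ k : Fin (d + 1), (k : ℕ) = j → comp (sg (d + 1) j)⁻¹ k = xD d j ∧
        ((((pm (d + 1) (sg (d + 1) j)⁻¹)⁻¹ k : Fin (d + 1))) : ℕ) = j + 1 := by
      intro k hk
      have h3 : ((pm (d + 1) (sg (d + 1) j) k : Fin (d + 1)) : ℕ) = j + 1 := by
        rw [pm_sg hj, hk, tn_self]
      constructor
      · rw [comp_inv, comp_sigma hj, h3, cD_succ, inv_inv]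
      · rw [map_inv, inv_inv, h3]
    obtain ⟨a1, a2⟩ := hs _ h2
    obtain ⟨b1, b2⟩ := hs' _ a2
    obtain ⟨c1, -⟩ := comp_C_inv (d := d) (j := j + 1) hj b2
    rw [comp_mul, comp_mul, comp_mul, h1, a1, one_mul, one_mul]
    have e1 : (pm (d + 1) (C d (j + 1) * (sg (d + 1) j)⁻¹))⁻¹ (Fin.last d) =
        (pm (d + 1) (sg (d + 1) j)⁻¹)⁻¹ ((pm (d + 1) (C d (j + 1)))⁻¹ (Fin.last d)) := by
      rw [map_mul, mul_inv_rev, Equiv.Perm.mul_apply]
    have e2 : (pm (d + 1) (C d (j + 1) * (sg (d + 1) j)⁻¹ * (sg (d + 1) j)⁻¹))⁻¹ (Fin.last d) =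
        (pm (d + 1) (sg (d + 1) j)⁻¹)⁻¹ ((pm (d + 1) (sg (d + 1) j)⁻¹)⁻¹
          ((pm (d + 1) (C d (j + 1)))⁻¹ (Fin.last d))) := by
      rw [map_mul, mul_inv_rev, Equiv.Perm.mul_apply, e1]
    rw [e1, e2, b1, c1, mul_one]
  · unfold A
    have h1 : pm (d + 1) (sg (d + 1) j) * pm (d + 1) (sg (d + 1) j) = 1 := by
      nth_rewrite 1 [← pm_sg_inv hj]
      exact inv_mul_cancel _
    rw [map_mul, map_mul, map_mul, map_inv, map_inv, mul_assoc (pm (d + 1) (C d (j + 1))),
      ← mul_inv_rev, h1]
    group

/-- the components of the elements of the stabiliser -/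
lemma comp_Psi {d : ℕ} (δ : D d) : comp (Psi d δ) (Fin.last d) = δ ∧
    pm (d + 1) (Psi d δ) (Fin.last d) = Fin.last d := by
  have hmul : ∀ a b : D d, (comp (Psi d a) (Fin.last d) = a ∧
      pm (d + 1) (Psi d a) (Fin.last d) = Fin.last d) →
      (comp (Psi d b) (Fin.last d) = b ∧ pm (d + 1) (Psi d b) (Fin.last d) = Fin.last d) →
      (comp (Psi d (a * b)) (Fin.last d) = a * b ∧
        pm (d + 1) (Psi d (a * b)) (Fin.last d) = Fin.last d) := by
    rintro a b ⟨h1, h2⟩ ⟨h3, h4⟩
    have h5 : (pm (d + 1) (Psi d a))⁻¹ (Fin.last d) = Fin.last d := by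
      rw [Equiv.Perm.inv_eq_iff_eq, h2]
    rw [map_mul, comp_mul, h1, h5, h3, map_mul, Equiv.Perm.mul_apply, h4, h2]
    exact ⟨rfl, rfl⟩
  have hinv : ∀ a : D d, (comp (Psi d a) (Fin.last d) = a ∧
      pm (d + 1) (Psi d a) (Fin.last d) = Fin.last d) →
      (comp (Psi d a⁻¹) (Fin.last d) = a⁻¹ ∧
        pm (d + 1) (Psi d a⁻¹) (Fin.last d) = Fin.last d) := by
    rintro a ⟨h1, h2⟩
    rw [map_inv, comp_inv, h2, h1, map_inv]
    refine ⟨rfl, ?_⟩
    rw [Equiv.Perm.inv_eq_iff_eq, h2]
  have hone : comp (Psi d 1) (Fin.last d) = 1 ∧ pm (d + 1) (Psi d 1) (Fin.last d) = Fin.last d := by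
    rw [map_one, comp_one, map_one]
    exact ⟨rfl, rfl⟩
  have hl : ∀ w : FreeGroup (Fin d), comp (Psi d (SemidirectProduct.inl w)) (Fin.last d) =
      SemidirectProduct.inl w ∧
      pm (d + 1) (Psi d (SemidirectProduct.inl w)) (Fin.last d) = Fin.last d := by
    intro w
    induction w using FreeGroup.induction_on with
    | C1 => rw [map_one]; exact hone
    | of x =>
      have h1 := comp_A x.2
      rw [show (SemidirectProduct.inl (FreeGroup.of x) : D d) = xD d x by
        rw [xD_of x.2], Psi_xD x.2]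
      refine ⟨h1.1, ?_⟩
      rw [h1.2, Equiv.Perm.one_apply]
    | inv_of x ih =>
      rw [map_inv]
      exact hinv _ ih
    | mul x y hx hy =>
      rw [map_mul]
      exact hmul _ _ hx hy
  have hr : ∀ b : Braid d, comp (Psi d (SemidirectProduct.inr b)) (Fin.last d) =
      SemidirectProduct.inr b ∧
      pm (d + 1) (Psi d (SemidirectProduct.inr b)) (Fin.last d) = Fin.last d := by
    intro b
    induction b using braid_induction with
    | h1 => rw [map_one]; exact hone
    | hs i =>
      have hid : (i : ℕ) + 1 < d := by omega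
      rw [Psi_inr, iota_sigma, comp_sigma (by omega)]
      constructor
      · rw [Fin.val_last, cD_gt hid, sD_of i.2]
      · apply Fin.ext
        rw [pm_sg (by omega), Fin.val_last, tn_ne (by omega) (by omega)]
    | hm a b ha hb => rw [map_mul]; exact hmul _ _ ha hb
    | hi a ha => rw [map_inv]; exact hinv _ ha
  have h := hmul _ _ (hl δ.left) (hr δ.right)
  rwa [SemidirectProduct.inl_left_mul_inr_right] at h

lemma Psi_injective (d : ℕ) : Function.Injective (Psi d) := by
  intro a b h
  rw [← (comp_Psi a).1, h, (comp_Psi b).1]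

lemma pm_push {d : ℕ} (w : FreeGroup (Fin d)) : pm (d + 1) (push d w) = 1 := by
  have h : (pm (d + 1)).comp (push d) = 1 := by
    apply FreeGroup.ext_hom
    intro k
    rw [MonoidHom.comp_apply]
    change pm (d + 1) (push d (gen k)) = 1
    rw [push_gen, (comp_A k.2).2]
  exact DFunLike.congr_fun h w

lemma pm_iota {d : ℕ} (b : Braid d) (k : Fin d) :
    pm (d + 1) (iota d b) k.castSucc = (pm d b k).castSucc := by
  have sv : ∀ (i : Fin (d - 1)) (k : Fin d), ((Equiv.swap (lo i) (hi i)) k : ℕ) = tn i k := by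
    intro i k
    rw [Equiv.swap_apply_def]
    unfold tn
    have h1 : (k = lo i) ↔ (k : ℕ) = i := ⟨fun h => congrArg Fin.val h, fun h => Fin.ext h⟩
    have h2 : (k = hi i) ↔ (k : ℕ) = i + 1 := ⟨fun h => congrArg Fin.val h, fun h => Fin.ext h⟩
    simp only [h1, h2]
    split_ifs <;> rfl
  induction b using braid_induction generalizing k with
  | h1 => rw [map_one, map_one, map_one]; rfl
  | hs i =>
    apply Fin.ext
    rw [iota_sigma, pm_sg (by omega), pm_sigma, Fin.val_castSucc, Fin.val_castSucc, sv]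
  | hm a b ha hb =>
    rw [map_mul, map_mul, map_mul, Equiv.Perm.mul_apply, Equiv.Perm.mul_apply, hb, ha]
  | hi a ha =>
    rw [map_inv, map_inv, map_inv, Equiv.Perm.inv_eq_iff_eq, ha, ← Equiv.Perm.mul_apply,
      mul_inv_cancel, Equiv.Perm.one_apply]

/-- the permutation of an element of the stabiliser -/
lemma pm_Psi {d : ℕ} (δ : D d) (k : Fin d) :
    pm (d + 1) (Psi d δ) k.castSucc = (pm d δ.right k).castSucc := by
  rw [← SemidirectProduct.inl_left_mul_inr_right δ, map_mul, Psi_inl, Psi_inr, map_mul, pm_push,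
    one_mul, pm_iota]
  simp

lemma comp_injective {d : ℕ} {g : Braid (d + 1)} (hp : pm (d + 1) g = 1)
    (h : comp g (Fin.last d) = 1) : g = 1 := by
  rw [eq_Psi g (by rw [hp, Equiv.Perm.one_apply]), h, map_one]

end Pool.Agent.Lib.MP347126
end

section
/-!
# MP_347126_al: residual finiteness, the even powers
-/
set_option autoImplicit false

namespace Pool.Agent.Lib.MP347126

open MPd28408

/-! ## The finite quotients of `D d` -/

section theta

variable {d : ℕ} {Q : Type} [Group Q]

lemma lift_aut (θ : Fin d → Q) (φ : MulAut (FreeGroup (Fin d))) (w : FreeGroup (Fin d)) :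
    FreeGroup.lift (fun k => FreeGroup.lift θ (φ (gen k))) w = FreeGroup.lift θ (φ w) := by
  have h1 : FreeGroup.lift (fun k => FreeGroup.lift θ (φ (gen k))) =
      (FreeGroup.lift θ).comp φ.toMonoidHom := by
    apply FreeGroup.ext_hom
    intro k
    rw [FreeGroup.lift_apply_of]
    rfl
  exact DFunLike.congr_fun h1 w

/-- the action of an automorphism on the homomorphisms to `Q` -/
def act1 (Q : Type) [Group Q] (φ : MulAut (FreeGroup (Fin d))) (θ : Fin d → Q) : Fin d → Q :=
  fun k => FreeGroup.lift θ (φ (gen k))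

lemma act1_act1 (φ ψ : MulAut (FreeGroup (Fin d))) (θ : Fin d → Q) :
    act1 Q φ (act1 Q ψ θ) = act1 Q (ψ * φ) θ := by
  funext k
  unfold act1
  rw [lift_aut, MulAut.mul_apply]

lemma act1_one (θ : Fin d → Q) : act1 Q 1 θ = θ := by
  funext k
  unfold act1
  rw [MulAut.one_apply, FreeGroup.lift_apply_of]

/-- braids act on the homomorphisms from the free group to `Q` -/
def actP (Q : Type) [Group Q] : Braid d →* Equiv.Perm (Fin d → Q) where
  toFun b :=
    { toFun := act1 Q (artin d b⁻¹)
      invFun := act1 Q (artin d b)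
      left_inv := fun θ => by
        rw [act1_act1, ← map_mul, inv_mul_cancel, map_one, act1_one]
      right_inv := fun θ => by
        rw [act1_act1, ← map_mul, mul_inv_cancel, map_one, act1_one] }
  map_one' := by
    apply Equiv.ext
    intro θ
    change act1 Q (artin d 1⁻¹) θ = θ
    rw [inv_one, map_one, act1_one]
  map_mul' a b := by
    apply Equiv.ext
    intro θ
    change act1 Q (artin d (a * b)⁻¹) θ = act1 Q (artin d a⁻¹) (act1 Q (artin d b⁻¹) θ)
    rw [act1_act1, ← map_mul, mul_inv_rev]

lemma actP_inv (b : Braid d) (θ : Fin d → Q) : (actP Q b)⁻¹ θ = act1 Q (artin d b) θ := rfl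

/-- evaluation at all homomorphisms -/
def ev (Q : Type) [Group Q] : FreeGroup (Fin d) →* ((Fin d → Q) → Q) where
  toFun w θ := FreeGroup.lift θ w
  map_one' := by
    funext θ
    rw [map_one]
    rfl
  map_mul' a b := by
    funext θ
    rw [map_mul]
    rfl

/-- the finite quotients of the stabiliser -/
def Theta (Q : Type) [Group Q] : D d →* W (Fin d → Q) Q :=
  SemidirectProduct.map (ev Q) (actP Q) (fun b => by
    apply MonoidHom.ext
    intro w
    funext θ
    change FreeGroup.lift θ (artin d b w) = FreeGroup.lift ((actP Q b)⁻¹ θ) w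
    rw [actP_inv]
    exact (lift_aut θ (artin d b) w).symm)

lemma Theta_inl (w : FreeGroup (Fin d)) (θ : Fin d → Q) :
    (Theta Q (SemidirectProduct.inl w)).left θ = FreeGroup.lift θ w := by
  unfold Theta
  rw [SemidirectProduct.map_inl, SemidirectProduct.left_inl]
  rfl

lemma Theta_inl_inj {v w : FreeGroup (Fin d)}
    (h : Theta Q (SemidirectProduct.inl v) = Theta Q (SemidirectProduct.inl w))
    (q : FreeGroup (Fin d) →* Q) : q v = q w := by
  have h1 := congrFun (congrArg SemidirectProduct.left h) (fun k => q (gen k))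
  rw [Theta_inl, Theta_inl] at h1
  have h2 : FreeGroup.lift (fun k => q (gen k)) = q := by
    apply FreeGroup.ext_hom
    intro k
    rw [FreeGroup.lift_apply_of]
  rwa [h2] at h1

end theta

/-! ## Residual finiteness -/

/-- residually finite -/
def RF (G : Type) [Group G] : Prop :=
  ∀ g : G, (∀ (Q : Type) (_ : Group Q) (_ : Finite Q) (q : G →* Q), q g = 1) → g = 1

lemma rf_free (d : ℕ) : RF (FreeGroup (Fin d)) := by
  intro g hg
  rcases Nat.eq_zero_or_pos d with rfl | hd
  · exact Subsingleton.elim _ _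
  · have h := free_sep (⟨0, hd⟩ : Fin d) 0 g (fun Q _ _ q => by
      rw [hg Q _ inferInstance q, zpow_zero, map_one])
    rwa [zpow_zero, isConj_one_left] at h

lemma rf_D {d : ℕ} (h : RF (Braid d)) : RF (D d) := by
  intro g hg
  have h1 : g.right = 1 := by
    refine h _ fun Q _ _ q => ?_
    exact hg Q _ inferInstance (q.comp SemidirectProduct.rightHom)
  have h2 : g = SemidirectProduct.inl g.left := by
    apply SemidirectProduct.ext
    · rw [SemidirectProduct.left_inl]
    · rw [SemidirectProduct.right_inl, h1]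
  have h3 : g.left = 1 := by
    refine rf_free d _ fun Q _ _ q => ?_
    have h4 := hg _ _ inferInstance (Theta Q)
    rw [h2, ← map_one (Theta Q), ← map_one (SemidirectProduct.inl (φ := artin d))] at h4
    rw [Theta_inl_inj h4 q, map_one]
  rw [h2, h3, map_one]

lemma rf_succ {d : ℕ} (h : RF (D d)) : RF (Braid (d + 1)) := by
  intro g hg
  have h1 : pm (d + 1) g = 1 := hg _ _ inferInstance (pm (d + 1))
  refine comp_injective h1 (h _ fun Q _ _ q => ?_)
  have h2 := hg _ _ inferInstance ((mapW (Fin (d + 1)) q).comp (Phi d))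
  have h3 := congrFun (congrArg SemidirectProduct.left h2) (Fin.last d)
  exact h3

lemma braid_zero (g : Braid 0) : g = 1 := by
  induction g using braid_induction with
  | h1 => rfl
  | hs i => exact i.elim0
  | hm a b ha hb => rw [ha, hb, mul_one]
  | hi a ha => rw [ha, inv_one]

theorem rf_braid (n : ℕ) : RF (Braid n) := by
  induction n with
  | zero => exact fun g _ => braid_zero g
  | succ d ih => exact rf_succ (rf_D ih)

/-! ## Finite quotients and conjugacy -/

section pc

variable {G : Type} [Group G]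

lemma exists_conj {x y : G} (h : ∀ (Q : Type) (_ : Group Q) (_ : Finite Q) (q : G →* Q),
    IsConj (q y) (q x)) {Q : Type} [Group Q] [Finite Q] (q : G →* Q) :
    ∃ g, q (g * x * g⁻¹) = q y := by
  have h1 := h q.range inferInstance inferInstance q.rangeRestrict
  obtain ⟨c, hc⟩ := isConj_iff.1 h1.symm
  obtain ⟨g, hg⟩ := q.rangeRestrict_surjective c
  refine ⟨g, ?_⟩
  have h2 := congrArg Subtype.val hc
  rw [← hg] at h2
  rw [map_mul, map_mul, map_inv]
  exact h2

/-- all the conjugating elements may be taken in one class of the kernel of `π` -/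
lemma exists_class {x y : G} (h : ∀ (Q : Type) (_ : Group Q) (_ : Finite Q) (q : G →* Q),
    IsConj (q y) (q x)) {S : Type} [Group S] [Finite S] (π : G →* S) :
    ∃ t : G, ∀ (Q : Type) (_ : Group Q) (_ : Finite Q) (q : G →* Q),
      ∃ g, π g = 1 ∧ q (g * x * g⁻¹) = q (t⁻¹ * y * t) := by
  have key : ∃ τ : S, ∀ (Q : Type) (_ : Group Q) (_ : Finite Q) (q : G →* Q),
      ∃ g, π g = τ ∧ q (g * x * g⁻¹) = q y := by
    by_contra hcon
    push Not at hcon
    choose Q hQ hf q hq using hcon
    obtain ⟨g, hg⟩ := exists_conj h (Q := ∀ τ, Q τ) (MonoidHom.pi q)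
    exact hq (π g) g rfl (congrFun hg (π g))
  obtain ⟨τ, hτ⟩ := key
  obtain ⟨t, ht, -⟩ := hτ S _ inferInstance π
  refine ⟨t, fun Q _ _ q => ?_⟩
  obtain ⟨g, hg, hg2⟩ := hτ Q _ inferInstance q
  refine ⟨t⁻¹ * g, by rw [map_mul, map_inv, ht, hg, inv_mul_cancel], ?_⟩
  have e : t⁻¹ * g * x * (t⁻¹ * g)⁻¹ = t⁻¹ * (g * x * g⁻¹) * t := by group
  rw [e, map_mul, map_mul, hg2, ← map_mul, ← map_mul]

end pc

/-! ## The even powers -/

lemma artin_pm {d : ℕ} (b : Braid d) : ∀ k, ∃ t : FreeGroup (Fin d),
    artin d b (gen k) = t * gen (pm d b k) * t⁻¹ := by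
  induction b using braid_induction with
  | h1 =>
    intro k
    exact ⟨1, by rw [map_one, map_one, MulAut.one_apply, Equiv.Perm.one_apply]; group⟩
  | hs i =>
    intro k
    rw [artin_sigma, pm_sigma]
    by_cases h1 : k = lo i
    · subst h1
      exact ⟨gen (lo i), by rw [artinAut_lo, Equiv.swap_apply_left]⟩
    · by_cases h2 : k = hi i
      · subst h2
        exact ⟨1, by rw [artinAut_hi, Equiv.swap_apply_right]; group⟩
      · exact ⟨1, by rw [artinAut_of_ne h1 h2, Equiv.swap_apply_of_ne_of_ne h1 h2]; group⟩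
  | hm a b ha hb =>
    intro k
    obtain ⟨t, ht⟩ := hb k
    obtain ⟨t', ht'⟩ := ha (pm d b k)
    refine ⟨artin d a t * t', ?_⟩
    rw [map_mul, MulAut.mul_apply, ht, map_mul, map_mul, map_inv, ht', map_mul,
      Equiv.Perm.mul_apply]
    group
  | hi a ha =>
    intro k
    obtain ⟨t, ht⟩ := ha ((pm d a)⁻¹ k)
    have e1 : pm d a ((pm d a)⁻¹ k) = k := by
      rw [← Equiv.Perm.mul_apply, mul_inv_cancel, Equiv.Perm.one_apply]
    rw [e1] at ht
    refine ⟨(artin d a⁻¹ t)⁻¹, ?_⟩
    have h1 := congrArg (artin d a⁻¹) ht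
    rw [← MulAut.mul_apply, ← map_mul, inv_mul_cancel, map_one, MulAut.one_apply, map_mul, map_mul,
      map_inv (artin d a⁻¹)] at h1
    rw [map_inv (pm d), h1]
    group

lemma conj_inl {d : ℕ} (δ : D d) (w : FreeGroup (Fin d)) :
    δ * SemidirectProduct.inl w * δ⁻¹ =
      SemidirectProduct.inl (δ.left * artin d δ.right w * δ.left⁻¹) := by
  apply SemidirectProduct.ext
  · rw [SemidirectProduct.left_inl, SemidirectProduct.mul_left, SemidirectProduct.mul_left,
      SemidirectProduct.mul_right, SemidirectProduct.left_inl, SemidirectProduct.right_inl,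
      SemidirectProduct.inv_left, mul_one, ← MulAut.mul_apply, ← map_mul, mul_inv_cancel, map_one,
      MulAut.one_apply]
  · rw [SemidirectProduct.right_inl, SemidirectProduct.mul_right, SemidirectProduct.mul_right,
      SemidirectProduct.right_inl, SemidirectProduct.inv_right, mul_one, mul_inv_cancel]

lemma comp_conj {d : ℕ} {h x : Braid (d + 1)} (hh : pm (d + 1) h = 1) (hx : pm (d + 1) x = 1) :
    comp (h * x * h⁻¹) (Fin.last d) =
      comp h (Fin.last d) * comp x (Fin.last d) * (comp h (Fin.last d))⁻¹ := by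
  rw [comp_mul, comp_mul, comp_inv, map_mul, hh, hx]
  simp

/-- Even powers of a standard generator, profinitely conjugate by pure braids. -/
theorem even_aux {d : ℕ} (b : Fin d) (i : ℤ) (y : Braid (d + 1))
    (h : ∀ (Q : Type) (_ : Group Q) (_ : Finite Q) (q : Braid (d + 1) →* Q),
      ∃ g, pm (d + 1) g = 1 ∧ q (g * push d (gen b ^ i) * g⁻¹) = q y) :
    ∃ u : FreeGroup (Fin d), y = push d u * push d (gen b ^ i) * (push d u)⁻¹ := by
  have hx : comp (push d (gen b ^ i)) (Fin.last d) = SemidirectProduct.inl (gen b ^ i) := by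
    rw [← Psi_inl, (comp_Psi _).1]
  have hy : pm (d + 1) y = 1 := by
    obtain ⟨g, hg, h1⟩ := h _ _ inferInstance (pm (d + 1))
    rw [← h1, map_mul, map_mul, map_inv, hg, pm_push]
    simp
  -- the components
  have hc : ∀ (E : Type) (_ : Group E) (_ : Finite E) (χ : D d →* E), ∃ δ : D d, pm d δ.right = 1 ∧
      χ (comp y (Fin.last d)) =
        χ (SemidirectProduct.inl (δ.left * artin d δ.right (gen b ^ i) * δ.left⁻¹)) := by
    intro E _ _ χ
    obtain ⟨g, hg, h1⟩ := h _ _ inferInstance ((mapW (Fin (d + 1)) χ).comp (Phi d))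
    have h2 : χ (comp (g * push d (gen b ^ i) * g⁻¹) (Fin.last d)) =
        χ (comp y (Fin.last d)) := congrFun (congrArg SemidirectProduct.left h1) (Fin.last d)
    refine ⟨comp g (Fin.last d), ?_, ?_⟩
    · have h3 := eq_Psi g (by rw [hg, Equiv.Perm.one_apply])
      apply Equiv.ext
      intro k
      have h4 := pm_Psi (comp g (Fin.last d)) k
      rw [← h3, hg, Equiv.Perm.one_apply] at h4
      rw [Equiv.Perm.one_apply]
      exact (Fin.castSucc_injective _ h4).symm
    · rw [← h2, comp_conj hg (pm_push _), hx, conj_inl]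
  have hr : (comp y (Fin.last d)).right = 1 := by
    refine rf_braid d _ fun Q _ _ q => ?_
    obtain ⟨δ, -, h1⟩ := hc Q _ inferInstance (q.comp SemidirectProduct.rightHom)
    rw [MonoidHom.comp_apply, MonoidHom.comp_apply, SemidirectProduct.rightHom_inl, map_one] at h1
    exact h1
  obtain ⟨v, hv⟩ : ∃ v, comp y (Fin.last d) = SemidirectProduct.inl v := by
    refine ⟨(comp y (Fin.last d)).left, ?_⟩
    apply SemidirectProduct.ext
    · rw [SemidirectProduct.left_inl]
    · rw [SemidirectProduct.right_inl, hr]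
  have hcon : IsConj v (gen b ^ i) := by
    refine free_sep b i v fun Q _ _ q => ?_
    obtain ⟨δ, hδ, h1⟩ := hc _ _ inferInstance (Theta Q)
    rw [hv] at h1
    rw [Theta_inl_inj h1 q]
    obtain ⟨t, ht⟩ := artin_pm δ.right b
    rw [hδ, Equiv.Perm.one_apply] at ht
    have e : δ.left * artin d δ.right (gen b ^ i) * δ.left⁻¹ =
        (δ.left * t) * (gen b ^ i) * (δ.left * t)⁻¹ := by
      rw [map_zpow, ht, conj_zpow]
      group
    rw [e]
    exact MonoidHom.map_isConj q (isConj_iff.2 ⟨_, rfl⟩ : IsConj (gen b ^ i) _).symm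
  obtain ⟨c, hc'⟩ := isConj_iff.1 hcon.symm
  refine ⟨c, ?_⟩
  rw [eq_Psi y (by rw [hy, Equiv.Perm.one_apply]), hv, Psi_inl, ← hc', map_mul, map_mul, map_inv]

end Pool.Agent.Lib.MP347126
end

section
/-!
# MP_347126_al: centralisers, torsion, the odd powers
-/
set_option autoImplicit false

namespace Pool.Agent.Lib.MP347126

open MPd28408

/-! ## Centraliser of a generator in a free group -/

lemma free_cent {α : Type} [DecidableEq α] (b : α) : ∀ (n : ℕ) (w : FreeGroup α),
    w.toWord.length = n → w * FreeGroup.of b = FreeGroup.of b * w →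
      ∃ m : ℤ, w = FreeGroup.of b ^ m := by
  intro n
  induction n using Nat.strong_induction_on with
  | _ n ih =>
    intro w hn hw
    cases hL : w.toWord with
    | nil =>
      exact ⟨0, by rw [zpow_zero]; exact FreeGroup.toWord_eq_nil_iff.1 hL⟩
    | cons x L' =>
      have hred : FreeGroup.IsReduced (x :: L') := by rw [← hL]; exact FreeGroup.isReduced_toWord
      have hw1 : w = FreeGroup.mk [x] * FreeGroup.mk L' := by
        rw [FreeGroup.mul_mk, ← FreeGroup.mk_toWord (x := w), hL]
        rfl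
      by_cases hx : x.1 = b
      · have hx1 : ∃ ε : ℤ, FreeGroup.mk [x] = FreeGroup.of b ^ ε := by
          obtain ⟨i, hi⟩ := mk_all (b := b) (L := [x]) (by
            intro y hy
            rw [List.mem_singleton] at hy
            rw [hy, hx])
          exact ⟨i, hi⟩
        obtain ⟨ε, hε⟩ := hx1
        have hred' : FreeGroup.IsReduced L' := by
          unfold FreeGroup.IsReduced at hred ⊢
          exact hred.tail
        have hlen : (FreeGroup.mk L').toWord.length < n := by
          rw [FreeGroup.toWord_mk, FreeGroup.isReduced_iff_reduce_eq.1 hred', ← hn, hL]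
          simp
        obtain ⟨m, hm⟩ := ih _ hlen (FreeGroup.mk L') rfl (by
          rw [hw1, hε] at hw
          have h1 : FreeGroup.of b ^ ε * (FreeGroup.mk L' * FreeGroup.of b) =
              FreeGroup.of b ^ ε * (FreeGroup.of b * FreeGroup.mk L') := by
            rw [← mul_assoc, hw, ← mul_assoc, ← mul_assoc, ← zpow_add_one, ← zpow_one_add]
            rw [add_comm]
          exact mul_left_cancel h1)
        refine ⟨ε + m, ?_⟩
        rw [hw1, hε, hm, zpow_add]
      · exfalso
        have h1 : (FreeGroup.of b * w).toWord = (b, true) :: x :: L' := by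
          have h2 : FreeGroup.of b * w = FreeGroup.mk ((b, true) :: x :: L') := by
            rw [← FreeGroup.mk_toWord (x := w), hL, FreeGroup.of, FreeGroup.mul_mk]
            rfl
          rw [h2, FreeGroup.toWord_mk, ← FreeGroup.isReduced_iff_reduce_eq]
          unfold FreeGroup.IsReduced at hred ⊢
          rw [List.isChain_cons_cons]
          exact ⟨fun h => absurd h.symm hx, hred⟩
        have h3 : (w * FreeGroup.of b).toWord = FreeGroup.reduce (x :: L' ++ [(b, true)]) := by
          have h2 : w * FreeGroup.of b = FreeGroup.mk (x :: L' ++ [(b, true)]) := by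
            rw [← FreeGroup.mk_toWord (x := w), hL, FreeGroup.of, FreeGroup.mul_mk]
          rw [h2, FreeGroup.toWord_mk]
        rw [hw, h1] at h3
        have h4 : (FreeGroup.reduce (x :: L' ++ [(b, true)])).Sublist (x :: L' ++ [(b, true)]) :=
          FreeGroup.Red.sublist FreeGroup.reduce.red
        rw [← h3] at h4
        have h5 := h4.eq_of_length (by simp)
        have h6 : (b, true) = x := by
          have := List.head_eq_of_cons_eq h5
          exact this
        exact hx (by rw [← h6])

/-! ## Torsion -/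

lemma sq_eq_one_free {α : Type} [DecidableEq α] {u : FreeGroup α} (h : u * u = 1) : u = 1 := by
  have h1 : Function.Injective fun a : FreeGroup α => a ^ 2 := pow_left_injective two_ne_zero
  apply h1
  simp only [one_pow]
  rw [sq, h]

lemma pure_torsion : ∀ (n : ℕ) (g : Braid n), pm n g = 1 → g * g = 1 → g = 1 := by
  intro n
  induction n with
  | zero => exact fun g _ _ => braid_zero g
  | succ d ih =>
    intro g hg h
    have h0 := eq_Psi g (by rw [hg, Equiv.Perm.one_apply])
    have h1 : comp g (Fin.last d) * comp g (Fin.last d) = 1 := by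
      have h2 := comp_mul g g (Fin.last d)
      rw [h, comp_one, hg, inv_one, Equiv.Perm.one_apply] at h2
      exact h2.symm
    have h3 : pm d (comp g (Fin.last d)).right = 1 := by
      apply Equiv.ext
      intro k
      have h4 := pm_Psi (comp g (Fin.last d)) k
      rw [← h0, hg, Equiv.Perm.one_apply] at h4
      rw [Equiv.Perm.one_apply]
      exact (Fin.castSucc_injective _ h4).symm
    have h4 : (comp g (Fin.last d)).right = 1 := by
      refine ih _ h3 ?_
      have h5 := congrArg SemidirectProduct.right h1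
      exact h5
    refine comp_injective hg ?_
    apply SemidirectProduct.ext
    · rw [SemidirectProduct.one_left]
      apply sq_eq_one_free
      have h5 := congrArg SemidirectProduct.left h1
      rw [SemidirectProduct.mul_left, h4, map_one, MulAut.one_apply, SemidirectProduct.one_left] at h5
      exact h5
    · rw [h4, SemidirectProduct.one_right]

/-! ## The centraliser of the square of a generator -/

lemma g_full {G : Type*} [Group G] {a b : G} (h : a * b * a = b * a * b) :
    b * a * a * b * a * a * b = b * (b * a * a * b * a * a) := by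
  have k : b * a * a * b * a = a * (b * a * a * b) := by
    calc b * a * a * b * a = b * a * (a * b * a) := by group
    _ = (b * a * b) * a * b := by rw [h]; group
    _ = a * (b * a * a * b) := by rw [← h]; group
  calc b * a * a * b * a * a * b = b * (a * (a * (b * a * a * b))) := by group
  _ = b * (a * (b * a * a * b * a)) := by rw [k]
  _ = b * (a * (b * a * a * b) * a) := by group
  _ = b * (b * a * a * b * a * a) := by rw [← k]

section cent

variable {e : ℕ}

lemma A_last : A (e + 1) e = (sg (e + 2) e)⁻¹ * (sg (e + 2) e)⁻¹ := by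
  unfold A
  rw [C_top, one_mul, inv_one, mul_one]

lemma Psi_cable {d f : ℕ} (h : d = f + 2) :
    Psi d ((xD d (f + 1))⁻¹ * (xD d f)⁻¹ * sD d f * sD d f) =
      sg (d + 1) (f + 1) * sg (d + 1) f * sg (d + 1) f * sg (d + 1) (f + 1) * sg (d + 1) f *
        sg (d + 1) f := by
  have hC : C d (f + 1 + 1) = 1 := by
    have : f + 1 + 1 = d := by omega
    rw [this, C_top]
  have hC' : C d (f + 1) = (sg (d + 1) (f + 1))⁻¹ := by
    rw [C_succ (by omega), hC, one_mul]
  rw [map_mul, map_mul, map_mul, map_inv, map_inv, Psi_xD (by omega), Psi_xD (by omega),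
    Psi_sD (by omega)]
  unfold A
  rw [hC', hC]
  generalize sg (d + 1) (f + 1) = x
  generalize sg (d + 1) f = y
  simp only [inv_one, mul_one, one_mul, inv_inv, mul_inv_rev, mul_assoc, mul_inv_cancel_left]

/-- elements of the stabiliser which commute with the last half-twist -/
def KK (e : ℕ) : Subgroup (D (e + 1)) :=
  Subgroup.centralizer {xD (e + 1) e} ⊓ (Subgroup.centralizer {sg (e + 2) e}).comap (Psi (e + 1))

lemma mem_KK {δ : D (e + 1)} : δ ∈ KK e ↔ δ * xD (e + 1) e = xD (e + 1) e * δ ∧
    Psi (e + 1) δ * sg (e + 2) e = sg (e + 2) e * Psi (e + 1) δ := by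
  unfold KK
  rw [Subgroup.mem_inf, Subgroup.mem_comap, Subgroup.mem_centralizer_singleton_iff,
    Subgroup.mem_centralizer_singleton_iff]

/-- the braids covered by `KK` -/
def ZZ (e : ℕ) : Subgroup (Braid (e + 1)) := (KK e).map SemidirectProduct.rightHom

lemma sg_mem_ZZ {i : ℕ} (hi : i + 1 < e) : sg (e + 1) i ∈ ZZ e := by
  refine ⟨sD (e + 1) i, ?_, ?_⟩
  · change sD (e + 1) i ∈ KK e
    rw [mem_KK, Psi_sD (by omega)]
    exact ⟨sx_ne (by omega) (by omega), sg_comm (by omega)⟩
  · rw [sD_eq, SemidirectProduct.rightHom_inr]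

lemma right_xD {d m : ℕ} : (xD d m).right = 1 := by
  unfold xD
  split_ifs
  · exact SemidirectProduct.right_inl ..
  · rfl

lemma A_mem_ZZ : ∀ j, j < e → A e j ∈ ZZ e := by
  rcases Nat.eq_zero_or_pos e with rfl | he
  · exact fun j hj => absurd hj (by omega)
  obtain ⟨f, rfl⟩ : ∃ f, e = f + 1 := ⟨e - 1, by omega⟩
  have key : ∀ j, j ≤ f → A (f + 1) j ∈ ZZ (f + 1) := by
    refine C_ind ?_ ?_
    · -- the square of the last generator
      rw [A_last, ← mul_inv_rev]
      refine inv_mem ⟨(xD (f + 2) (f + 1))⁻¹ * (xD (f + 2) f)⁻¹ * sD (f + 2) f * sD (f + 2) f,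
        ?_, ?_⟩
      · change _ ∈ KK (f + 1)
        rw [mem_KK]
        have r1 := sx_lo (d := f + 2) (a := f) (by omega)
        have r2 := sx_hi (d := f + 2) (a := f) (by omega)
        set X := xD (f + 2) f
        set Y := xD (f + 2) (f + 1)
        set S := sD (f + 2) f
        constructor
        · calc Y⁻¹ * X⁻¹ * S * S * Y = Y⁻¹ * X⁻¹ * S * (S * Y) := by group
          _ = Y⁻¹ * X⁻¹ * (S * X) * S := by rw [r2]; group
          _ = Y * (Y⁻¹ * X⁻¹ * S * S) := by rw [r1]; group
        · have hP : Psi (f + 1 + 1) (Y⁻¹ * X⁻¹ * S * S) = _ := Psi_cable (d := f + 1 + 1) rfl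
          rw [hP]
          exact g_full (sg_braid (by omega))
      · rw [map_mul, map_mul, map_mul]
        simp only [SemidirectProduct.rightHom_eq_right, SemidirectProduct.inv_right, right_xD,
          sD_eq, SemidirectProduct.right_inr]
        simp
    · intro j hj ih
      have h1 := A_hi (d := f + 1) (i := j) (by omega)
      have h2 : A (f + 1) j = sg (f + 2) j * A (f + 1) (j + 1) * (sg (f + 2) j)⁻¹ := by
        rw [h1, mul_inv_cancel_right]
      rw [h2]
      have h3 : sg (f + 2) j ∈ ZZ (f + 1) := sg_mem_ZZ (by omega)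
      exact mul_mem (mul_mem h3 ih) (inv_mem h3)
  exact fun j hj => key j (by omega)

lemma Psi_mem_ZZ (ε : D e) : Psi e ε ∈ ZZ e := by
  have hl : ∀ w : FreeGroup (Fin e), push e w ∈ ZZ e := by
    intro w
    induction w using FreeGroup.induction_on with
    | C1 => rw [map_one]; exact one_mem _
    | of x =>
      change push e (gen x) ∈ ZZ e
      rw [push_gen]
      exact A_mem_ZZ _ x.2
    | inv_of x ih => rw [map_inv]; exact inv_mem ih
    | mul x y hx hy => rw [map_mul]; exact mul_mem hx hy
  have hr : ∀ b : Braid e, iota e b ∈ ZZ e := by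
    intro b
    induction b using braid_induction with
    | h1 => rw [map_one]; exact one_mem _
    | hs i => rw [iota_sigma]; exact sg_mem_ZZ (by omega)
    | hm a b ha hb => rw [map_mul]; exact mul_mem ha hb
    | hi a ha => rw [map_inv]; exact inv_mem ha
  rw [← SemidirectProduct.inl_left_mul_inr_right ε, map_mul, Psi_inl, Psi_inr]
  exact mul_mem (hl _) (hr _)

/-- A braid which fixes the last strand and commutes with an even power of the last generator
commutes with it. -/
theorem cent_even {g : Braid (e + 2)} {k : ℤ} (hk : k ≠ 0)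
    (hg : pm (e + 2) g (Fin.last (e + 1)) = Fin.last (e + 1))
    (hc : g * push (e + 1) (gen (Fin.last e) ^ k) = push (e + 1) (gen (Fin.last e) ^ k) * g) :
    g * sg (e + 2) e = sg (e + 2) e * g := by
  have h0 := eq_Psi g hg
  set δ := comp g (Fin.last (e + 1)) with hδ
  have hY : xD (e + 1) e = SemidirectProduct.inl (gen (Fin.last e)) := xD_of (Nat.lt_succ_self e)
  -- `δ` commutes with the generator
  have h1 : δ.left * artin (e + 1) δ.right (gen (Fin.last e)) * δ.left⁻¹ = gen (Fin.last e) := by
    have h2 : δ * SemidirectProduct.inl (gen (Fin.last e) ^ k) * δ⁻¹ =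
        SemidirectProduct.inl (gen (Fin.last e) ^ k) := by
      apply Psi_injective
      rw [map_mul, map_mul, map_inv, ← h0, Psi_inl, hc, mul_inv_cancel_right]
    rw [conj_inl] at h2
    have h3 := SemidirectProduct.inl_injective h2
    rw [map_zpow, ← conj_zpow] at h3
    exact zpow_left_injective hk h3
  have h2 : δ * xD (e + 1) e = xD (e + 1) e * δ := by
    have h3 := conj_inl δ (gen (Fin.last e))
    rw [h1] at h3
    rw [hY, ← mul_inv_eq_iff_eq_mul, h3]
  have h3 : pm (e + 1) δ.right (Fin.last e) = Fin.last e := by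
    obtain ⟨t, ht⟩ := artin_pm δ.right (Fin.last e)
    rw [ht] at h1
    by_contra hne
    have h4 := congrArg (FreeGroup.lift fun a : Fin (e + 1) =>
      Multiplicative.ofAdd (if a = Fin.last e then (1 : ℤ) else 0)) h1
    simp only [map_mul, map_inv, FreeGroup.lift_apply_of, if_neg hne, if_true] at h4
    have h5 := congrArg Multiplicative.toAdd h4
    simp at h5
  have h4 : δ.right ∈ ZZ e := by
    rw [eq_Psi δ.right h3]
    exact Psi_mem_ZZ _
  obtain ⟨κ, hκ, hκ2⟩ := h4
  obtain ⟨k1, k2⟩ := mem_KK.1 hκ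
  -- the difference is a power of the generator
  have h5 : (δ * κ⁻¹).right = 1 := by
    rw [SemidirectProduct.mul_right, SemidirectProduct.inv_right, ← hκ2,
      SemidirectProduct.rightHom_eq_right, mul_inv_cancel]
  have h6 : δ * κ⁻¹ = SemidirectProduct.inl (δ * κ⁻¹).left := by
    apply SemidirectProduct.ext
    · rw [SemidirectProduct.left_inl]
    · rw [SemidirectProduct.right_inl, h5]
  have h7 : (δ * κ⁻¹) * xD (e + 1) e = xD (e + 1) e * (δ * κ⁻¹) := by
    have c1 : Commute δ (xD (e + 1) e) := h2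
    have c2 : Commute κ (xD (e + 1) e) := k1
    exact (c1.mul_left c2.inv_left)
  rw [h6, hY, ← map_mul, ← map_mul] at h7
  obtain ⟨m, hm⟩ := free_cent (Fin.last e) _ _ rfl (SemidirectProduct.inl_injective h7)
  have h8 : g = push (e + 1) (gen (Fin.last e) ^ m) * Psi (e + 1) κ := by
    rw [h0, ← Psi_inl, ← hm, ← h6, ← map_mul, inv_mul_cancel_right]
  have h9 : Commute (push (e + 1) (gen (Fin.last e) ^ m)) (sg (e + 2) e) := by
    rw [map_zpow, push_gen, Fin.val_last, A_last]
    exact Commute.zpow_left (((Commute.refl _).inv_left).mul_left ((Commute.refl _).inv_left)) _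
  have c2 : Commute (Psi (e + 1) κ) (sg (e + 2) e) := k2
  rw [h8]
  exact h9.mul_left c2

end cent

end Pool.Agent.Lib.MP347126
end

section
/-!
# MP_347126_al: the conjugacy classes of the powers of half-twists are closed
-/
set_option autoImplicit false

namespace Pool.Agent.Lib.MP347126

open MPd28408

section last

variable {e : ℕ}

lemma push_last (m : ℤ) : push (e + 1) (gen (Fin.last e) ^ (-m)) = sg (e + 2) e ^ (2 * m) := by
  rw [map_zpow, push_gen, Fin.val_last, A_last, zpow_neg, ← inv_zpow, mul_inv_rev, inv_inv,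
    two_mul, zpow_add, Commute.mul_zpow (Commute.refl _)]

theorem main_last (k : ℤ) (y : Braid (e + 2))
    (h : ∀ (Q : Type) (_ : Group Q) (_ : Finite Q) (q : Braid (e + 2) →* Q),
      IsConj (q y) (q (sg (e + 2) e ^ k))) : IsConj y (sg (e + 2) e ^ k) := by
  obtain ⟨t, ht⟩ := exists_class h (pm (e + 2))
  set y' := t⁻¹ * y * t with hy'
  have h0 : IsConj y y' := isConj_iff.2 ⟨t⁻¹, by rw [inv_inv]⟩
  refine h0.trans ?_
  rcases Int.even_or_odd' k with ⟨m, hm | hm⟩
  · rw [hm, ← push_last] at ht ⊢
    obtain ⟨u, hu⟩ := even_aux (Fin.last e) (-m) y' ht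
    exact (isConj_iff.2 ⟨_, hu.symm⟩ : IsConj _ y').symm
  · have h2 : ∀ (Q : Type) (_ : Group Q) (_ : Finite Q) (q : Braid (e + 2) →* Q),
        ∃ g, pm (e + 2) g = 1 ∧
          q (g * push (e + 1) (gen (Fin.last e) ^ (-k)) * g⁻¹) = q (y' * y') := by
      intro Q _ _ q
      obtain ⟨g, hg, hg2⟩ := ht Q _ inferInstance q
      refine ⟨g, hg, ?_⟩
      rw [push_last, map_mul q y' y', ← hg2, ← map_mul]
      congr 1
      rw [two_mul, zpow_add]
      group
    obtain ⟨u, hu⟩ := even_aux (Fin.last e) (-k) (y' * y') h2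
    set y2 := (push (e + 1) u)⁻¹ * y' * push (e + 1) u with hy2
    have h3 : IsConj y' y2 := isConj_iff.2 ⟨(push (e + 1) u)⁻¹, by rw [inv_inv]⟩
    refine h3.trans ?_
    have h4 : y2 * y2 = push (e + 1) (gen (Fin.last e) ^ (-k)) := by
      rw [hy2]
      calc (push (e + 1) u)⁻¹ * y' * push (e + 1) u * ((push (e + 1) u)⁻¹ * y' * push (e + 1) u)
          = (push (e + 1) u)⁻¹ * (y' * y') * push (e + 1) u := by group
      _ = push (e + 1) (gen (Fin.last e) ^ (-k)) := by rw [hu]; group
    set s := sg (e + 2) e with hs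
    have h5 : pm (e + 2) y2 = pm (e + 2) (s ^ k) := by
      obtain ⟨g, hg, hg2⟩ := ht _ _ inferInstance (pm (e + 2))
      rw [hy2, map_mul, map_mul, map_inv, pm_push, ← hg2, map_mul, map_mul, map_inv, hg]
      simp
    set g := y2 * (s ^ k)⁻¹ with hg
    have h6 : pm (e + 2) g = 1 := by rw [hg, map_mul, map_inv, h5, mul_inv_cancel]
    have c1 : Commute y2 (push (e + 1) (gen (Fin.last e) ^ (-k))) := by
      rw [← h4]
      exact (Commute.refl y2).mul_right (Commute.refl y2)
    have c2 : Commute (s ^ k) (push (e + 1) (gen (Fin.last e) ^ (-k))) := by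
      rw [push_last]
      exact Commute.zpow_zpow (Commute.refl s) _ _
    have h7 : g * s = s * g := by
      refine cent_even (k := -k) (by omega) ?_ (c1.mul_left c2.inv_left)
      rw [h6, Equiv.Perm.one_apply]
    have c3 : Commute g (s ^ k) := Commute.zpow_right (show Commute g s from h7) k
    have h8 : y2 = g * s ^ k := by rw [hg, inv_mul_cancel_right]
    have h9 : g * g = 1 := by
      have h10 : g * g * (s ^ k * s ^ k) = y2 * y2 := by
        rw [h8]
        have c4 : s ^ k * g = g * s ^ k := c3.eq.symm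
        calc g * g * (s ^ k * s ^ k) = g * (g * s ^ k) * s ^ k := by group
        _ = g * (s ^ k * g) * s ^ k := by rw [c4]
        _ = g * s ^ k * (g * s ^ k) := by group
      rw [h4, push_last, two_mul, zpow_add] at h10
      exact mul_eq_right.1 h10
    have h11 := pure_torsion _ g h6 h9
    rw [h8, h11, one_mul]

lemma sg_conj : ∀ i, i ≤ e → IsConj (sg (e + 2) i) (sg (e + 2) e) := by
  refine C_ind (IsConj.refl _) ?_
  intro i hi ih
  refine IsConj.trans ?_ ih
  refine isConj_iff.2 ⟨sg (e + 2) i * sg (e + 2) (i + 1), ?_⟩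
  rw [mul_inv_eq_iff_eq_mul, sg_braid (by omega), mul_assoc]

end last

theorem main {n : ℕ} (hn : 2 ≤ n) (i : Fin (n - 1)) (k : ℤ) (z : Braid n)
    (hz : z ∈ Subgroup.center (Braid n)) (y : Braid n)
    (h : ∀ (Q : Type) (_ : Group Q) (_ : Finite Q) (q : Braid n →* Q),
      IsConj (q y) (q (sigma i ^ k * z))) : IsConj y (sigma i ^ k * z) := by
  obtain ⟨e, rfl⟩ : ∃ e, n = e + 2 := ⟨n - 2, by omega⟩
  rw [Subgroup.mem_center_iff] at hz
  obtain ⟨c, hc⟩ := isConj_iff.1 (sg_conj (e := e) (i : ℕ) (by omega))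
  rw [← sigma_eq] at hc
  have hck : c * sigma i ^ k * c⁻¹ = sg (e + 2) e ^ k := by
    rw [← conj_zpow, hc]
  have h1 : IsConj (y * z⁻¹) (sg (e + 2) e ^ k) := by
    refine main_last k _ fun Q _ _ q => ?_
    obtain ⟨g, hg⟩ := exists_conj h q
    have e1 : q (y * z⁻¹) = q (g * sigma i ^ k * g⁻¹) := by
      rw [map_mul, ← hg, ← map_mul]
      congr 1
      have h2 : z * g⁻¹ = g⁻¹ * z := (hz g⁻¹).symm
      calc g * (sigma i ^ k * z) * g⁻¹ * z⁻¹ = g * sigma i ^ k * (z * g⁻¹) * z⁻¹ := by group
      _ = g * sigma i ^ k * g⁻¹ := by rw [h2]; group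
    rw [e1, ← hck]
    refine MonoidHom.map_isConj q ?_
    exact (isConj_iff.2 ⟨g, rfl⟩ : IsConj (sigma i ^ k) _).symm.trans (isConj_iff.2 ⟨c, rfl⟩)
  rw [← hck] at h1
  obtain ⟨f, hf⟩ := isConj_iff.1 h1
  refine isConj_iff.2 ⟨c⁻¹ * f, ?_⟩
  have h2 : z * f⁻¹ = f⁻¹ * z := (hz f⁻¹).symm
  have h3 : z * c = c * z := (hz c).symm
  calc c⁻¹ * f * y * (c⁻¹ * f)⁻¹ = c⁻¹ * (f * (y * z⁻¹) * (z * f⁻¹)) * c := by group
  _ = c⁻¹ * (f * (y * z⁻¹) * f⁻¹) * (z * c) := by rw [h2]; group
  _ = sigma i ^ k * z := by rw [hf, h3]; group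

end Pool.Agent.Lib.MP347126
end
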