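import Pool.Agent.Lib.MP_347126_al.Wr
import Pool.Agent.Lib.MP_d28408_gt.Artin

/-!
# MP_347126_al: the braid group as a group of matrices over the stabiliser of a strand
-/

set_option autoImplicit false

namespace Pool.Agent.Lib.MP347126

open MPd28408

/-- the model of the stabiliser of the last strand of `d + 1` strands -/
abbrev D (d : ℕ) : Type := FreeGroup (Fin d) ⋊[artin d] Braid d

/-- the generator number `m` of the braid group in `D d` -/
def sD (d m : ℕ) : D d := if h : m < d - 1 then SemidirectProduct.inr (sigma ⟨m, h⟩) else 1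

/-- the generator number `m` of the free group in `D d` -/
def xD (d m : ℕ) : D d := if h : m < d then SemidirectProduct.inl (gen ⟨m, h⟩) else 1

/-- the generator number `m` of the braid group on `d` strands -/
def sg (d m : ℕ) : Braid d := if h : m < d - 1 then sigma ⟨m, h⟩ else 1

lemma sg_of {d m : ℕ} (h : m < d - 1) : sg d m = sigma ⟨m, h⟩ := dif_pos h

lemma sigma_eq {d : ℕ} (i : Fin (d - 1)) : sigma i = sg d i := by
  rw [sg_of i.2]

lemma sg_comm {d a b : ℕ} (h : a + 1 < b) : sg d a * sg d b = sg d b * sg d a := by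
  unfold sg
  split_ifs with h1 h2 h2
  · have : (FreeGroup.of (⟨a, h1⟩ : Fin (d - 1)) * FreeGroup.of ⟨b, h2⟩ *
        (FreeGroup.of ⟨b, h2⟩ * FreeGroup.of ⟨a, h1⟩)⁻¹) ∈ braidRels d :=
      ⟨⟨a, h1⟩, ⟨b, h2⟩, Or.inr ⟨h, rfl⟩⟩
    have h3 := PresentedGroup.one_of_mem this
    rw [map_mul, map_inv, mul_inv_eq_one, map_mul, map_mul] at h3
    exact h3
  all_goals simp

lemma sg_comm' {d a b : ℕ} (h : a + 1 < b) : sg d b * sg d a = sg d a * sg d b := (sg_comm h).symm

lemma sg_braid {d a : ℕ} (h : a + 1 < d - 1) :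
    sg d a * sg d (a + 1) * sg d a = sg d (a + 1) * sg d a * sg d (a + 1) := by
  rw [sg_of h, sg_of (show a < d - 1 by omega)]
  have h1 : a < d - 1 := by omega
  have : (FreeGroup.of (⟨a, h1⟩ : Fin (d - 1)) * FreeGroup.of ⟨a + 1, h⟩ * FreeGroup.of ⟨a, h1⟩ *
      (FreeGroup.of ⟨a + 1, h⟩ * FreeGroup.of ⟨a, h1⟩ * FreeGroup.of ⟨a + 1, h⟩)⁻¹) ∈
      braidRels d :=
    ⟨⟨a, h1⟩, ⟨a + 1, h⟩, Or.inl ⟨rfl, rfl⟩⟩
  have h3 := PresentedGroup.one_of_mem this
  rw [map_mul, map_inv, mul_inv_eq_one, map_mul, map_mul, map_mul, map_mul] at h3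
  exact h3

lemma sD_eq (d m : ℕ) : sD d m = SemidirectProduct.inr (sg d m) := by
  unfold sD sg
  split_ifs
  · rfl
  · rw [map_one]

lemma sD_comm {d a b : ℕ} (h : a + 1 < b) : sD d a * sD d b = sD d b * sD d a := by
  rw [sD_eq, sD_eq, ← map_mul, ← map_mul, sg_comm h]

lemma sD_braid {d a : ℕ} (h : a + 1 < d - 1) :
    sD d a * sD d (a + 1) * sD d a = sD d (a + 1) * sD d a * sD d (a + 1) := by
  rw [sD_eq, sD_eq, ← map_mul, ← map_mul, ← map_mul, ← map_mul, sg_braid h]

lemma inr_inl {d : ℕ} (b : Braid d) (w : FreeGroup (Fin d)) :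
    (SemidirectProduct.inr b : D d) * SemidirectProduct.inl w =
      SemidirectProduct.inl (artin d b w) * SemidirectProduct.inr b := by
  rw [SemidirectProduct.inl_aut, map_inv, inv_mul_cancel_right]

lemma sD_of {d m : ℕ} (h : m < d - 1) : sD d m = SemidirectProduct.inr (sigma ⟨m, h⟩) := dif_pos h

lemma xD_of {d m : ℕ} (h : m < d) : xD d m = SemidirectProduct.inl (gen ⟨m, h⟩) := dif_pos h

lemma sx_lo {d a : ℕ} (h : a < d - 1) :
    sD d a * xD d a = xD d a * xD d (a + 1) * (xD d a)⁻¹ * sD d a := by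
  have h1 : a < d := by omega
  have h2 : a + 1 < d := by omega
  rw [sD_of h, xD_of h1, xD_of h2, inr_inl, artin_sigma]
  have : artinAut ⟨a, h⟩ (gen ⟨a, h1⟩) =
      gen ⟨a, h1⟩ * gen ⟨a + 1, h2⟩ * (gen ⟨a, h1⟩ : FreeGroup (Fin d))⁻¹ :=
    artinAut_lo (d := d) ⟨a, h⟩
  rw [this, map_mul, map_mul, map_inv]

lemma sx_hi {d a : ℕ} (h : a < d - 1) : sD d a * xD d (a + 1) = xD d a * sD d a := by
  have h1 : a < d := by omega
  have h2 : a + 1 < d := by omega
  rw [sD_of h, xD_of h1, xD_of h2, inr_inl, artin_sigma]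
  have : artinAut ⟨a, h⟩ (gen ⟨a + 1, h2⟩) = (gen ⟨a, h1⟩ : FreeGroup (Fin d)) :=
    artinAut_hi (d := d) ⟨a, h⟩
  rw [this]

lemma sx_ne {d a b : ℕ} (h1 : b ≠ a) (h2 : b ≠ a + 1) : sD d a * xD d b = xD d b * sD d a := by
  unfold sD xD
  split_ifs with h h'
  · rw [inr_inl, artin_sigma, artinAut_of_ne]
    · intro h3
      exact h1 (congrArg Fin.val h3)
    · intro h3
      exact h2 (congrArg Fin.val h3)
  all_goals simp

lemma sxi_ne {d a b : ℕ} (h1 : b ≠ a) (h2 : b ≠ a + 1) :
    sD d a * (xD d b)⁻¹ = (xD d b)⁻¹ * sD d a := by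
  rw [mul_inv_eq_iff_eq_mul, mul_assoc, sx_ne h1 h2, inv_mul_cancel_left]

lemma sxi_hi {d a : ℕ} (h : a < d - 1) : sD d a * (xD d (a + 1))⁻¹ = (xD d a)⁻¹ * sD d a := by
  rw [mul_inv_eq_iff_eq_mul, mul_assoc, sx_hi h, inv_mul_cancel_left]

/-- the cocycle -/
def cD (d i j : ℕ) : D d :=
  if i + 1 < j then sD d i else if j = i + 1 then (xD d i)⁻¹ else if j = i then 1 else sD d (i - 1)

lemma cD_gt {d i j : ℕ} (h : i + 1 < j) : cD d i j = sD d i := if_pos h

lemma cD_succ {d i : ℕ} : cD d i (i + 1) = (xD d i)⁻¹ := by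
  rw [cD, if_neg (by omega), if_pos rfl]

lemma cD_self {d i : ℕ} : cD d i i = 1 := by
  rw [cD, if_neg (by omega), if_neg (by omega), if_pos rfl]

lemma cD_lt {d i j : ℕ} (h : j < i) : cD d i j = sD d (i - 1) := by
  rw [cD, if_neg (by omega), if_neg (by omega), if_neg (by omega)]

/-- the transposition of `i` and `i + 1` -/
def tn (i k : ℕ) : ℕ := if k = i then i + 1 else if k = i + 1 then i else k

lemma tn_self {i : ℕ} : tn i i = i + 1 := if_pos rfl

lemma tn_succ {i : ℕ} : tn i (i + 1) = i := by rw [tn, if_neg (by omega), if_pos rfl]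

lemma tn_ne {i k : ℕ} (h1 : k ≠ i) (h2 : k ≠ i + 1) : tn i k = k := by rw [tn, if_neg h1, if_neg h2]

lemma cD_braid {d i k : ℕ} (hi : i + 1 < d) (hk : k ≤ d) :
    cD d i k * cD d (i + 1) (tn i k) * cD d i (tn (i + 1) (tn i k)) =
      cD d (i + 1) k * cD d i (tn (i + 1) k) * cD d (i + 1) (tn i (tn (i + 1) k)) := by
  rcases Nat.lt_or_ge k i with h | h
  · rw [tn_ne (i := i) (k := k) (by omega) (by omega), tn_ne (i := i + 1) (k := k) (by omega) (by omega),
      tn_ne (i := i) (k := k) (by omega) (by omega), cD_lt h, cD_lt (by omega)]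
    obtain ⟨m, rfl⟩ : ∃ m, i = m + 1 := ⟨i - 1, by omega⟩
    rw [show m + 1 - 1 = m by omega, show m + 1 + 1 - 1 = m + 1 by omega]
    exact sD_braid (by omega)
  rcases Nat.eq_or_lt_of_le h with rfl | h
  · rw [tn_self, tn_self, tn_ne (i := i + 1) (k := i) (by omega) (by omega), tn_self, cD_self,
      cD_self, cD_gt (by omega : i + 1 < i + 1 + 1), cD_lt (by omega : i < i + 1)]
    simp
  rcases Nat.eq_or_lt_of_le (show i + 1 ≤ k from h) with rfl | h
  · rw [tn_succ, tn_self, tn_ne (i := i + 1) (k := i) (by omega) (by omega),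
      tn_ne (i := i) (k := i + 1 + 1) (by omega) (by omega), cD_succ, cD_lt (by omega : i < i + 1),
      cD_self, cD_self, cD_gt (by omega : i + 1 < i + 1 + 1), cD_succ]
    rw [mul_one, one_mul, show i + 1 - 1 = i by omega]
    exact (sxi_hi (by omega)).symm
  rcases Nat.eq_or_lt_of_le (show i + 2 ≤ k from h) with rfl | h
  · rw [tn_ne (i := i) (k := i + 2) (by omega) (by omega), show i + 2 = i + 1 + 1 by omega, tn_succ,
      tn_succ, cD_gt (by omega : i + 1 < i + 1 + 1), cD_succ, cD_succ, cD_lt (by omega : i < i + 1),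
      show i + 1 - 1 = i by omega]
    have h1 := sx_lo (d := d) (a := i) (by omega)
    have h2 := sx_hi (d := d) (a := i) (by omega)
    have h3 : sD d i * (xD d i * xD d (i + 1)) = (xD d i * xD d (i + 1)) * sD d i := by
      rw [← mul_assoc, h1, mul_assoc, h2]
      group
    rw [mul_assoc, ← mul_inv_rev, mul_inv_eq_iff_eq_mul, mul_assoc, h3, ← mul_assoc]
    group
  · rw [tn_ne (i := i) (k := k) (by omega) (by omega), tn_ne (i := i + 1) (k := k) (by omega) (by omega),
      tn_ne (i := i) (k := k) (by omega) (by omega), cD_gt (by omega), cD_gt (by omega)]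
    exact sD_braid (by omega)

lemma cD_comm {d i j k : ℕ} (hij : i + 1 < j) :
    cD d i k * cD d j (tn i k) = cD d j k * cD d i (tn j k) := by
  rcases Nat.lt_or_ge k i with h | h
  · rw [tn_ne (i := i) (k := k) (by omega) (by omega), tn_ne (i := j) (k := k) (by omega) (by omega),
      cD_lt h, cD_lt (by omega)]
    exact sD_comm (by omega)
  rcases Nat.eq_or_lt_of_le h with rfl | h
  · rw [tn_self, tn_ne (i := j) (k := i) (by omega) (by omega), cD_self, cD_lt hij, cD_lt (by omega)]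
    simp
  rcases Nat.eq_or_lt_of_le (show i + 1 ≤ k from h) with rfl | h
  · rw [tn_succ, tn_ne (i := j) (k := i + 1) (by omega) (by omega), cD_succ, cD_lt (by omega),
      cD_lt (by omega)]
    exact (sxi_ne (by omega) (by omega)).symm
  rw [tn_ne (i := i) (k := k) (by omega) (by omega)]
  rcases Nat.lt_or_ge k j with h' | h'
  · rw [tn_ne (i := j) (k := k) (by omega) (by omega), cD_gt h, cD_lt h']
    exact sD_comm (by omega)
  rcases Nat.eq_or_lt_of_le h' with rfl | h'
  · rw [tn_self, cD_gt hij, cD_self, cD_gt (by omega)]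
    simp
  rcases Nat.eq_or_lt_of_le (show j + 1 ≤ k from h') with rfl | h'
  · rw [tn_succ, cD_gt (by omega), cD_succ, cD_gt hij]
    exact sxi_ne (by omega) (by omega)
  · rw [tn_ne (i := j) (k := k) (by omega) (by omega), cD_gt h, cD_gt h']
    exact sD_comm hij

/-- the image of the generator number `i` -/
def TT (d : ℕ) (i : Fin (d + 1 - 1)) : W (Fin (d + 1)) (D d) :=
  ⟨fun k => cD d i k, Equiv.swap (lo i) (hi i)⟩

lemma swap_val {d : ℕ} (i : Fin (d + 1 - 1)) (k : Fin (d + 1)) :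
    ((Equiv.swap (lo i) (hi i)) k : ℕ) = tn i k := by
  rw [Equiv.swap_apply_def]
  unfold tn
  have h1 : (k = lo i) ↔ (k : ℕ) = i := ⟨fun h => congrArg Fin.val h, fun h => Fin.ext h⟩
  have h2 : (k = hi i) ↔ (k : ℕ) = i + 1 := ⟨fun h => congrArg Fin.val h, fun h => Fin.ext h⟩
  simp only [h1, h2]
  split_ifs <;> rfl

lemma TT_left {d : ℕ} (i : Fin (d + 1 - 1)) (k : Fin (d + 1)) : (TT d i).left k = cD d i k := rfl

lemma TT_right {d : ℕ} (i : Fin (d + 1 - 1)) : (TT d i).right = Equiv.swap (lo i) (hi i) := rfl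

lemma perm_ext_val {n : ℕ} {f g : Equiv.Perm (Fin n)} (h : ∀ k, (f k : ℕ) = g k) : f = g :=
  Equiv.ext fun k => Fin.ext (h k)

lemma tn_braid (i k : ℕ) : tn i (tn (i + 1) (tn i k)) = tn (i + 1) (tn i (tn (i + 1) k)) := by
  unfold tn
  split_ifs <;> omega

lemma tn_comm {i j : ℕ} (h : i + 1 < j) (k : ℕ) : tn i (tn j k) = tn j (tn i k) := by
  unfold tn
  split_ifs <;> omega

lemma TT_rels {d : ℕ} : ∀ r ∈ braidRels (d + 1), FreeGroup.lift (TT d) r = 1 := by
  rintro r ⟨i, j, ⟨hij, rfl⟩ | ⟨hij, rfl⟩⟩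
  · rw [map_mul, map_inv, mul_inv_eq_one]
    simp only [map_mul, FreeGroup.lift_apply_of]
    apply SemidirectProduct.ext
    · funext k
      simp only [mul_left_apply, SemidirectProduct.mul_right, TT_left, TT_right, mul_inv_rev,
        Equiv.Perm.mul_apply, Equiv.swap_inv, swap_val]
      rw [← hij]
      exact cD_braid (by omega) (by omega)
    · apply perm_ext_val
      intro k
      simp only [SemidirectProduct.mul_right, TT_right, Equiv.Perm.mul_apply, swap_val]
      rw [← hij]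
      exact tn_braid _ _
  · rw [map_mul, map_inv, mul_inv_eq_one]
    simp only [map_mul, FreeGroup.lift_apply_of]
    apply SemidirectProduct.ext
    · funext k
      simp only [mul_left_apply, TT_left, TT_right, Equiv.swap_inv, swap_val]
      exact cD_comm hij
    · apply perm_ext_val
      intro k
      simp only [SemidirectProduct.mul_right, TT_right, Equiv.Perm.mul_apply, swap_val]
      exact tn_comm hij _

/-- the representation of the braid group on `d + 1` strands -/
def Phi (d : ℕ) : Braid (d + 1) →* W (Fin (d + 1)) (D d) := PresentedGroup.toGroup TT_rels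

lemma Phi_sigma {d : ℕ} (i : Fin (d + 1 - 1)) : Phi d (sigma i) = TT d i :=
  PresentedGroup.toGroup.of TT_rels

end Pool.Agent.Lib.MP347126
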