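import Mathlib

/-!
# MP_347126_al: permutational wreath products
-/

set_option autoImplicit false

namespace Pool.Agent.Lib.MP347126

/-- permutations of `X` act on the functions on `X` -/
def arr (X G : Type*) [Group G] : Equiv.Perm X →* MulAut (X → G) where
  toFun π :=
    { toFun := fun f x => f (π⁻¹ x)
      invFun := fun f x => f (π x)
      left_inv := fun f => by
        funext x
        simp
      right_inv := fun f => by
        funext x
        simp
      map_mul' := fun _ _ => rfl }
  map_one' := by
    ext f x
    simp
  map_mul' π ρ := by
    ext f x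
    simp

/-- the wreath product -/
abbrev W (X G : Type*) [Group G] : Type _ := (X → G) ⋊[arr X G] Equiv.Perm X

variable {X G H : Type*} [Group G] [Group H]

lemma arr_apply (π : Equiv.Perm X) (f : X → G) (x : X) : arr X G π f x = f (π⁻¹ x) := rfl

lemma mul_left_apply (a b : W X G) (x : X) : (a * b).left x = a.left x * b.left (a.right⁻¹ x) := rfl

lemma one_left_apply (x : X) : (1 : W X G).left x = 1 := rfl

lemma inv_left_apply (a : W X G) (x : X) : (a⁻¹).left x = (a.left (a.right x))⁻¹ := by
  rw [SemidirectProduct.inv_left, arr_apply]
  simp

instance finite_W [Finite X] [Finite G] : Finite (W X G) :=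
  Finite.of_equiv _ (SemidirectProduct.equivProd (N := X → G) (G := Equiv.Perm X)).symm

/-- functoriality -/
def mapW (X : Type*) (χ : G →* H) : W X G →* W X H :=
  SemidirectProduct.map (MonoidHom.compLeft χ X) (MonoidHom.id _) (fun π => by
    ext f x
    rfl)

lemma mapW_left (χ : G →* H) (a : W X G) (x : X) : (mapW X χ a).left x = χ (a.left x) := rfl

lemma mapW_right (χ : G →* H) (a : W X G) : (mapW X χ a).right = a.right := rfl

end Pool.Agent.Lib.MP347126
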